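import Pool.Agent.SFI.Targets

/-!
# SFI: CNT, the final counting contradiction
-/

set_option autoImplicit false

open Finset

namespace Pool.Agent.SFI

open Pool.Agent.SFB (Con dg nc)

namespace CNT_

variable {V : Type} [Fintype V] [DecidableEq V]

/-- near regularity -/
theorem reg (G : SimpleGraph V) (k : ℕ) (hN : Near G k) (A : Finset V) :
    |gE G A univ| ≤ 2 * (k : ℤ) * Fintype.card V := by
  have h1 : |gE G A univ| ≤ ∑ w ∈ A, (2 * (k : ℤ)) := by
    unfold gE
    refine (abs_sum_le_sum_abs _ _).trans (sum_le_sum fun w _ => ?_)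
    obtain ⟨h2, h3⟩ := hN w
    rw [inter_univ, card_univ, abs_le]
    constructor
    · have : (Fintype.card V : ℤ) ≤ 2 * ((dg G w).card : ℤ) + 2 * k := by exact_mod_cast h2
      linarith
    · have : 2 * ((dg G w).card : ℤ) ≤ (Fintype.card V : ℤ) + 2 * k := by exact_mod_cast h3
      linarith
  have h2 : (A.card : ℤ) ≤ Fintype.card V := by exact_mod_cast card_le_univ A
  refine h1.trans ?_
  rw [sum_const, nsmul_eq_mul]
  have h3 : (0 : ℤ) ≤ 2 * k := by positivity
  calc (A.card : ℤ) * (2 * k) ≤ (Fintype.card V : ℤ) * (2 * k) :=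
        mul_le_mul_of_nonneg_right h2 h3
    _ = 2 * (k : ℤ) * Fintype.card V := by ring

end CNT_

theorem p_CNT (hGSY : T_GSY) : T_CNT := by
  intro V _ _ G A B P R Z P0 R0 k e hAB hP hR hZ huniv hZc hP0 hR0 hN hV hke h8P h8R ha hb hc hd
    hminP hminR
  obtain ⟨sym, addr, addl, bnd⟩ := hGSY V G
  -- disjointness
  have dAP : Disjoint A P := hP.mono_left subset_union_left
  have dBP : Disjoint B P := hP.mono_left subset_union_right
  have dAR : Disjoint A R := hR.mono_left (subset_union_left.trans subset_union_left)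
  have dBR : Disjoint B R := hR.mono_left (subset_union_right.trans subset_union_left)
  have dAP0 : Disjoint A P0 := dAP.mono_right hP0
  have dBP0 : Disjoint B P0 := dBP.mono_right hP0
  have dAR0 : Disjoint A R0 := dAR.mono_right hR0
  have dBR0 : Disjoint B R0 := dBR.mono_right hR0
  -- the hypotheses
  rw [addr A A P0 dAP0, addr A A R0 dAR0, sym A P0, sym A R0] at ha
  rw [addr B B R0 dBR0, addr B B P0 dBP0, sym B P0, sym B R0] at hb
  rw [addr R A R0 dAR0, addr R B R0 dBR0] at hc
  rw [addr P A P0 dAP0, addr P B P0 dBP0] at hd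
  -- regularity
  have rA := CNT_.reg G k hN A
  have rB := CNT_.reg G k hN B
  have eA : gE G A univ = gE G A A + gE G A B + gE G P A + gE G R A + gE G A Z := by
    rw [← huniv, addr A _ Z hZ, addr A _ R hR, addr A _ P hP, addr A A B hAB, sym A P, sym A R]
  have eB : gE G B univ = gE G A B + gE G B B + gE G P B + gE G R B + gE G B Z := by
    rw [← huniv, addr B _ Z hZ, addr B _ R hR, addr B _ P hP, addr B A B hAB, sym B P, sym B R,
      sym B A]
  have bZ : ∀ T : Finset V, |gE G T Z| ≤ 2 * (Fintype.card V : ℤ) := by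
    intro T
    refine (bnd T Z).trans ?_
    have h1 : (T.card : ℤ) ≤ Fintype.card V := by exact_mod_cast card_le_univ T
    have h2 : (Z.card : ℤ) ≤ 2 := by exact_mod_cast hZc
    have h3 : (0 : ℤ) ≤ (Z.card : ℤ) := by positivity
    calc (T.card : ℤ) * Z.card ≤ (Fintype.card V : ℤ) * Z.card :=
          mul_le_mul_of_nonneg_right h1 h3
      _ ≤ (Fintype.card V : ℤ) * 2 := mul_le_mul_of_nonneg_left h2 (by positivity)
      _ = 2 * (Fintype.card V : ℤ) := by ring
  have bA := abs_le.1 (bZ A)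
  have bB := abs_le.1 (bZ B)
  rw [eA] at rA
  rw [eB] at rB
  have rA := abs_le.1 rA
  have rB := abs_le.1 rB
  set n : ℤ := (Fintype.card V : ℤ) with hn
  have hn1 : (1 : ℤ) ≤ n := by rw [hn]; exact_mod_cast hV
  -- sizes
  have he0 : (0 : ℤ) ≤ (e : ℤ) := by positivity
  have hk0 : (0 : ℤ) ≤ (k : ℤ) := by positivity
  have hke' : 100 * (k : ℤ) + 100 ≤ e := by exact_mod_cast hke
  have sP : (e : ℤ) * n ≤ 8 * (e : ℤ) * P.card := by
    have h1 : n ≤ 8 * (P.card : ℤ) := by rw [hn]; exact_mod_cast h8P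
    calc (e : ℤ) * n ≤ e * (8 * (P.card : ℤ)) := mul_le_mul_of_nonneg_left h1 he0
      _ = 8 * (e : ℤ) * P.card := by ring
  have sR : (e : ℤ) * n ≤ 8 * (e : ℤ) * R.card := by
    have h1 : n ≤ 8 * (R.card : ℤ) := by rw [hn]; exact_mod_cast h8R
    calc (e : ℤ) * n ≤ e * (8 * (R.card : ℤ)) := mul_le_mul_of_nonneg_left h1 he0
      _ = 8 * (e : ℤ) * R.card := by ring
  have hen : (100 * (k : ℤ) + 100) * n ≤ e * n := mul_le_mul_of_nonneg_right hke' (by linarith)
  have hkn : 0 ≤ (k : ℤ) * n := mul_nonneg hk0 (by linarith)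
  have sA : 0 ≤ 8 * (e : ℤ) * A.card := by positivity
  have sB : 0 ≤ 8 * (e : ℤ) * B.card := by positivity
  have pP := hminP (by linarith)
  have pR := hminR (by linarith)
  linarith

end Pool.Agent.SFI
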