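import Pool.Agent.SFI.Targets

/-!
# SFI, CST: the costs in the two colours
-/

set_option autoImplicit false

open Finset

namespace Pool.Agent.SFI

open Pool.Agent.SFB (Con dg nc)

namespace CST_

lemma deg_sum {V : Type} [Fintype V] [DecidableEq V] (G : SimpleGraph V) (v : V) :
    (dg G v).card + (dg Gᶜ v).card + 1 = Fintype.card V := by
  classical
  have h3 : dg Gᶜ v = (univ \ {v}) \ dg G v := by
    ext w
    rw [Pool.Agent.SFB.mem_dg_compl]
    simp
  have h4 : dg G v ⊆ univ \ {v} := by
    intro w hw
    simp only [mem_sdiff, mem_univ, mem_singleton, true_and]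
    rintro rfl
    exact Pool.Agent.SFB.not_mem_dg hw
  have h5 := card_sdiff_add_card_eq_card h4
  have h6 : (univ \ {v} : Finset V).card + 1 = Fintype.card V := by
    have h7 := card_sdiff_add_card_eq_card (subset_univ ({v} : Finset V))
    rw [card_singleton, card_univ] at h7
    exact h7
  rw [h3]
  omega

/-- Greedy extension and embedding. -/
lemma core (hEMC : T_EMC) (hGRE : T_GRE) {V : Type} [Fintype V] [DecidableEq V]
    (G : SimpleGraph V) (a : ℕ → ℕ) (k e i m : ℕ) (v : V) (c : ℕ → V) (D : ℕ → Finset V)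
    (hD : DPar a k e (Fintype.card V)) (hN : Near G k) (hi : 1 ≤ i) (hik : i ≤ k)
    (hP : Psy G a k i (dg G v) c D) (h0 : c 0 = v)
    (hm : ∀ c' : ℕ → V, (∀ t < i, c' t = c t) →
      ((range k).image c' ∩ dg G v).card ≤ m) (hd : a 0 + m ≤ (dg G v).card) :
    Con G k a := by
  obtain ⟨c', D', hP', hc'⟩ := hGRE V G a k e i (dg G v) c D hD
    (fun w => by have := (hN w).1; omega) (by have := (hN v).2; omega) hi hik hP
  refine hEMC V G a k (dg G v) c' D' (by omega) hP' ?_ ?_
  · rw [hc' 0 (by omega), h0]
  · have h1 := hm c' hc'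
    have h2 := card_sdiff_add_card_inter (dg G v) ((range k).image c')
    rw [inter_comm] at h2
    omega

/-- The centres in `dg G v`. -/
lemma count {V : Type} [Fintype V] [DecidableEq V] (G : SimpleGraph V) (v x : V)
    (k i : ℕ) (_hi : 2 ≤ i) (_hik : i ≤ k) (c c' : ℕ → V) (h0 : c 0 = v) (h1 : c 1 = x)
    (hav : ∀ t, 2 ≤ t → t < i → c t ∉ dg G v) (hc' : ∀ t < i, c' t = c t) :
    ((range k).image c' ∩ dg G v).card ≤ (if x ∈ dg G v then 1 else 0) + (k - i) := by
  have hsub : (range k).image c' ∩ dg G v ⊆
      (if x ∈ dg G v then {x} else ∅) ∪ (Ico i k).image c' := by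
    intro w hw
    rw [mem_inter, mem_image] at hw
    obtain ⟨⟨t, ht, rfl⟩, hw⟩ := hw
    rw [mem_range] at ht
    rw [mem_union]
    by_cases hti : t < i
    · left
      rw [hc' t hti] at hw ⊢
      rcases Nat.lt_or_ge t 2 with h2 | h2
      · interval_cases t
        · rw [h0] at hw
          exact absurd hw Pool.Agent.SFB.not_mem_dg
        · rw [h1] at hw ⊢
          rw [if_pos hw]
          exact mem_singleton_self x
      · exact absurd hw (hav t h2 hti)
    · right
      exact mem_image_of_mem c' (mem_Ico.2 ⟨by omega, ht⟩)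
  refine (card_le_card hsub).trans ((card_union_le _ _).trans ?_)
  have h3 : ((Ico i k).image c').card ≤ k - i := by
    refine card_image_le.trans ?_
    rw [Nat.card_Ico]
  have h4 : (if x ∈ dg G v then ({x} : Finset V) else ∅).card =
      (if x ∈ dg G v then 1 else 0) := by
    split_ifs <;> simp
  rw [h4]
  omega

end CST_

open CST_ in
/-- CST. -/
theorem p_CST (hEMC : T_EMC) (hGRE : T_GRE) : T_CST := by
  intro V _ _ G a k e p v x c D hD hN hNc hvx hpk hN2 hP h0 h1 hav hD1
  by_cases hg : a 0 + ((if x ∈ dg G v then 1 else 0) + (k - (p + 2))) ≤ (dg G v).card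
  · left
    exact core hEMC hGRE G a k e (p + 2) _ v c D hD hN (by omega) hpk hP h0
      (fun c' hc' => count G v x k (p + 2) (by omega) hpk c c' h0 h1 hav hc') hg
  · right
    obtain ⟨D1, hD1s, hD1c⟩ := exists_subset_card_eq hD1
    have hk2 := hD.k2
    have hsd : ∀ w ∈ D1, w ∈ dg Gᶜ x ∧ w ∉ dg Gᶜ v := fun w hw => mem_sdiff.1 (hD1s hw)
    have hP2 : Psy Gᶜ a k 2 (dg Gᶜ v) (fun t => if t = 0 then v else x) (fun _ => D1) := by
      refine ⟨?_, ?_, ?_, ?_, ?_⟩
      · intro s hs t ht hst
        rw [Set.mem_Iio] at hs ht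
        simp only at hst
        by_cases h2 : s = 0
        · by_cases h3 : t = 0
          · omega
          · rw [if_pos h2, if_neg h3] at hst
            exact absurd hst hvx
        · by_cases h3 : t = 0
          · rw [if_neg h2, if_pos h3] at hst
            exact absurd hst.symm hvx
          · omega
      · intro t ht1 ht2 w hw
        have h2 : t ≠ 0 := by omega
        simp only [if_neg h2]
        exact (hsd w hw).1
      · intro t _ _
        rw [disjoint_left]
        intro w hw
        exact (hsd w hw).2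
      · intro t ht1 ht2
        have h2 : t = 1 := by omega
        subst h2
        exact hD1c
      · intro s t hs hst ht
        omega
    refine core hEMC hGRE Gᶜ a k e 2 ((if x ∈ dg Gᶜ v then 1 else 0) + (k - 2)) v
      (fun t => if t = 0 then v else x) (fun _ => D1) hD hNc (by omega) hk2 hP2 (by simp)
      (fun c' hc' => count Gᶜ v x k 2 le_rfl hk2 _ c' (by simp) (by simp)
        (fun t h2 h3 => by omega) hc') ?_
    have hs := deg_sum G v
    by_cases hx : x ∈ dg G v
    · have hx' : x ∉ dg Gᶜ v := by
        rw [Pool.Agent.SFB.mem_dg_compl]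
        exact fun h => h.2 hx
      rw [if_pos hx] at hg
      rw [if_neg hx']
      omega
    · have hx' : x ∈ dg Gᶜ v := by
        rw [Pool.Agent.SFB.mem_dg_compl]
        exact ⟨hvx.symm, hx⟩
      rw [if_neg hx] at hg
      rw [if_pos hx']
      omega

end Pool.Agent.SFI
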