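import Pool.Agent.SFI.Targets

/-!
# EMC: embedding from disjoint leaf sets
-/

set_option autoImplicit false

open Finset

namespace Pool.Agent.SFI

open Pool.Agent.SFB (Con dg nc)

theorem p_EMC (hEMB : Pool.Agent.SFB.T_EMB) : T_EMC := by
  intro V _ _ G a k Z c D hk hP hZ h0
  refine hEMB V G k a c hP.inj (fun J hJ _ => ?_)
  set C : Finset V := (range k).image c with hC
  have hCk : C.card ≤ k := by
    refine card_image_le.trans ?_
    rw [card_range]
  have hJk : ∀ t ∈ J, t < k := fun t ht => mem_range.mp (hJ ht)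
  set X : ℕ → Finset V := fun t => if t = 0 then Z \ C else D t \ C with hX
  have hXc : ∀ t ∈ J, a t ≤ (X t).card := by
    intro t ht
    by_cases h : t = 0
    · simp only [hX, if_pos h]
      rw [h]
      exact h0
    · simp only [hX, if_neg h]
      have h1 := hP.crd t (Nat.one_le_iff_ne_zero.mpr h) (hJk t ht)
      have h2 := le_card_sdiff C (D t)
      omega
  have hXs : ∀ t ∈ J, X t ⊆ nc G c J \ C := by
    intro t ht w hw
    by_cases h : t = 0
    · simp only [hX, if_pos h, mem_sdiff] at hw
      rw [mem_sdiff]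
      refine ⟨Pool.Agent.SFB.mem_nc.mpr ⟨0, ?_, hZ hw.1⟩, hw.2⟩
      rw [← h]
      exact ht
    · simp only [hX, if_neg h, mem_sdiff] at hw
      rw [mem_sdiff]
      exact ⟨Pool.Agent.SFB.mem_nc.mpr
        ⟨t, ht, hP.sub t (Nat.one_le_iff_ne_zero.mpr h) (hJk t ht) hw.1⟩, hw.2⟩
  have hXd : ∀ s ∈ J, ∀ t ∈ J, s ≠ t → Disjoint (X s) (X t) := by
    have key : ∀ s t, s < t → t ∈ J → Disjoint (X s) (X t) := by
      intro s t hst ht
      have ht0 : t ≠ 0 := by omega
      by_cases h : s = 0
      · simp only [hX, if_pos h, if_neg ht0]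
        refine Disjoint.mono sdiff_subset sdiff_subset ?_
        exact (hP.avZ t (by omega) (hJk t ht)).symm
      · simp only [hX, if_neg h, if_neg ht0]
        refine Disjoint.mono sdiff_subset sdiff_subset ?_
        exact hP.dsj s t (by omega) hst (hJk t ht)
    intro s hs t ht hst
    rcases lt_or_gt_of_ne hst with h | h
    · exact key s t h ht
    · exact (key t s h hs).symm
  calc ∑ t ∈ J, a t ≤ ∑ t ∈ J, (X t).card := sum_le_sum hXc
    _ = (J.biUnion X).card := (card_biUnion (fun s hs t ht hst => hXd s hs t ht hst)).symm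
    _ ≤ (nc G c J \ C).card := card_le_card (biUnion_subset.mpr hXs)

end Pool.Agent.SFI
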