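import Pool.Agent.SFI.Targets

/-!
# SFI: the exchange argument for a far pair (T_EXC)
-/

set_option autoImplicit false

open Finset

namespace Pool.Agent.SFI

open Pool.Agent.SFB (Con dg nc)

namespace EXC_

variable {V : Type} [Fintype V] [DecidableEq V]

/-- few vertices of `T` are hosts -/
lemma exc_card {H : SimpleGraph V} {a : ℕ → ℕ} {k h : ℕ} {v x : V} {D T S : Finset V}
    (hD : D ⊆ dg H x \ dg H v) (hc : D.card = a 1 + k) (hn : ¬ Hst H a k h v x D)
    (hT : ∀ y ∈ T, y ≠ v ∧ y ≠ x ∧ y ∉ dg H v) (hS : S ⊆ (univ \ dg H v) \ D) :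
    (T.filter (fun y => h ≤ (dg H y ∩ S).card)).card ≤ k := by
  have h1 : (univ.filter (fun y => y ≠ v ∧ y ≠ x ∧ y ∉ dg H v ∧
      h ≤ (dg H y ∩ ((univ \ dg H v) \ D)).card)).card < k := by
    by_contra hh
    exact hn ⟨hD, hc, not_lt.1 hh⟩
  refine le_trans (card_le_card ?_) h1.le
  intro y hy
  rw [mem_filter] at hy ⊢
  obtain ⟨e1, e2, e3⟩ := hT y hy.1
  exact ⟨mem_univ _, e1, e2, e3, hy.2.trans (card_le_card (inter_subset_inter_left hS))⟩

/-- the estimate in the graph itself -/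
lemma low {G : SimpleGraph V} {T S : Finset V} {k e h : ℕ} (hS : 2 * h + 4 * e ≤ S.card)
    (hc : (T.filter (fun y => h ≤ (dg G y ∩ S).card)).card ≤ k) :
    (T.filter (fun y =>
      ¬ (2 * ((dg G y ∩ S).card : ℤ) - S.card ≤ -(4 * (e : ℤ))))).card ≤ k := by
  refine le_trans (card_le_card ?_) hc
  intro y hy
  rw [mem_filter] at hy ⊢
  refine ⟨hy.1, ?_⟩
  by_contra hh
  apply hy.2
  omega

/-- neighbours in both graphs -/
lemma compl_card (G : SimpleGraph V) (y : V) (S : Finset V) :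
    S.card ≤ (dg G y ∩ S).card + (dg Gᶜ y ∩ S).card + 1 := by
  have h1 : S ⊆ ((dg G y ∩ S) ∪ (dg Gᶜ y ∩ S)) ∪ {y} := by
    intro w hw
    rw [mem_union, mem_union, mem_inter, mem_inter, mem_singleton]
    by_cases h2 : w = y
    · exact Or.inr h2
    · by_cases h3 : w ∈ dg G y
      · exact Or.inl (Or.inl ⟨h3, hw⟩)
      · exact Or.inl (Or.inr ⟨Pool.Agent.SFB.mem_dg_compl.2 ⟨h2, h3⟩, hw⟩)
  refine (card_le_card h1).trans ((card_union_le _ _).trans ?_)
  rw [card_singleton]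
  exact Nat.add_le_add_right (card_union_le _ _) 1

/-- the estimate in the complement -/
lemma high {G : SimpleGraph V} {T S : Finset V} {k e h : ℕ} (hS : 2 * h + 4 * e ≤ S.card)
    (hc : (T.filter (fun y => h ≤ (dg Gᶜ y ∩ S).card)).card ≤ k) :
    (T.filter (fun y =>
      ¬ (4 * (e : ℤ) ≤ 2 * ((dg G y ∩ S).card : ℤ) - S.card))).card ≤ k := by
  refine le_trans (card_le_card ?_) hc
  intro y hy
  rw [mem_filter] at hy ⊢
  refine ⟨hy.1, ?_⟩
  by_contra hh
  apply hy.2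
  have := compl_card G y S
  omega

/-- the choice of a subset -/
lemma choose (hMIN : T_MIN) (G : SimpleGraph V) (A B P : Finset V) (m : ℕ) (hm : m ≤ P.card) :
    ∃ P0 ⊆ P, P0.card = m ∧
      (0 ≤ gE G P A - gE G P B → gE G P0 A - gE G P0 B ≤ gE G P A - gE G P B) := by
  obtain ⟨P0, h1, h2, h3⟩ := hMIN V (fun z => (2 * ((dg G z ∩ A).card : ℤ) - (A.card : ℤ)) -
    (2 * ((dg G z ∩ B).card : ℤ) - (B.card : ℤ))) P m hm
  refine ⟨P0, h1, h2, ?_⟩
  have h4 : ∀ T : Finset V, ∑ z ∈ T, ((2 * ((dg G z ∩ A).card : ℤ) - (A.card : ℤ)) -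
      (2 * ((dg G z ∩ B).card : ℤ) - (B.card : ℤ))) = gE G T A - gE G T B := by
    intro T
    rw [sum_sub_distrib]
    rfl
  rw [h4, h4] at h3
  exact h3

/-- a set, its two parts and one more element -/
lemma t3 {X A P d : ℕ} (e1 : X + A = d) (e2 : P ≤ X) (e3 : X ≤ P + 1) :
    A + P ≤ d ∧ d ≤ A + P + 1 := by
  omega

/-- the size of a side -/
lemma bnd1 {k e N b X Q : ℕ} (q1 : 4 * b + 32 * e ≤ N + 2 * k) (q2 : 31 * e ≤ N)
    (q3 : 2000 * k ≤ e) (q5 : 2 ≤ k) (hf : N ≤ 4 * X + 8 * e) (h : X ≤ Q + 2 * k + 1) :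
    b + k ≤ Q ∧ N ≤ 8 * Q := by
  omega

/-- the size of a union -/
lemma bnd2 {k s e N ω h b T Q Q0 : ℕ} (hh : h = ω + 2 * s) (q6 : 1000 * s ≤ e)
    (q4 : 2 * k ≤ s) (q5 : 2 ≤ k) (hω : 2 * b + 4 * ω + 16 * e ≤ N)
    (hT : N ≤ 2 * (T + Q) + 2 * k + 4) (hQ : Q0 = Q - (b + k)) (hb : b + k ≤ Q) :
    2 * h + 4 * e ≤ T + Q0 := by
  omega

/-- the slack is large -/
lemma small {k e : ℕ} (q3 : 2000 * k ≤ e) (q5 : 2 ≤ k) : 100 * k + 100 ≤ e := by
  omega

/-- there are vertices -/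
lemma pos4 {k e N : ℕ} (h : 100 * k + 100 ≤ e) (h4 : 4 * e ≤ N) : 1 ≤ N := by
  omega

/-- the outer part of a vertex -/
lemma out1 {A B P R Z N d k : ℕ} (cN : A + B + P + R + Z = N) (cZ : Z ≤ 2) (c : A + P ≤ d)
    (n : 2 * d ≤ N + 2 * k) : N ≤ 2 * (B + R) + 2 * k + 4 := by
  omega

/-- the outer part of a vertex, other side -/
lemma out2 {A B P R Z N d k : ℕ} (cN : A + B + P + R + Z = N) (cZ : Z ≤ 2) (c : A + R ≤ d)
    (n : 2 * d ≤ N + 2 * k) : N ≤ 2 * (B + P) + 2 * k + 4 := by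
  omega

/-- the inner part of a vertex -/
lemma inn {A P N d k : ℕ} (c : d ≤ A + P + 1) (n : N ≤ 2 * d + 2 * k) :
    N ≤ 2 * (A + P) + 2 * k + 4 := by
  omega

end EXC_

open EXC_ in
theorem p_EXC (hFAC : T_FAC) (hMIN : T_MIN) (hSUM : T_SUM) (hCNT : T_CNT) : T_EXC := by
  intro V _ _ G a k e p v x hD hn hnc hvx hp hω hfar
  by_contra hcon
  push Not at hcon
  set ω : ℕ := ∑ t ∈ Ico 2 (p + 2), a t with hωd
  set N : ℕ := Fintype.card V with hN
  set h : ℕ := ω + 2 * k ^ 2 with hh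
  -- the parameters
  have q1 := hD.one
  have q2 := hD.eN
  have q3 := hD.ek
  have q4 := hD.k1
  have q5 := hD.k2
  have q6 := hD.big
  -- the sets
  set A : Finset V := dg G v ∩ dg G x with hA
  set Z : Finset V := {v, x} with hZ
  set B : Finset V := univ \ (dg G v ∪ dg G x ∪ Z) with hB
  set P : Finset V := (dg G v \ dg G x) \ {x} with hP
  set R : Finset V := (dg G x \ dg G v) \ {v} with hR
  have mA : ∀ y, y ∈ A ↔ y ∈ dg G v ∧ y ∈ dg G x := fun y => mem_inter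
  have mB : ∀ y, y ∈ B ↔ y ∉ dg G v ∧ y ∉ dg G x ∧ y ≠ v ∧ y ≠ x := by
    intro y
    simp only [hB, hZ, mem_sdiff, mem_univ, true_and, mem_union, mem_insert, mem_singleton,
      not_or]
    tauto
  have mP : ∀ y, y ∈ P ↔ (y ∈ dg G v ∧ y ∉ dg G x) ∧ y ≠ x := by
    intro y
    simp only [hP, mem_sdiff, mem_singleton]
  have mR : ∀ y, y ∈ R ↔ (y ∈ dg G x ∧ y ∉ dg G v) ∧ y ≠ v := by
    intro y
    simp only [hR, mem_sdiff, mem_singleton]
  have mZ : ∀ y, y ∈ Z ↔ y = v ∨ y = x := by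
    intro y
    simp only [hZ, mem_insert, mem_singleton]
  have hvv : v ∉ dg G v := Pool.Agent.SFB.not_mem_dg
  have hxx : x ∉ dg G x := Pool.Agent.SFB.not_mem_dg
  -- disjointness
  have dAB : Disjoint A B := by
    rw [disjoint_left]
    intro y h1 h2
    exact ((mB y).1 h2).1 ((mA y).1 h1).1
  have dABP : Disjoint (A ∪ B) P := by
    rw [disjoint_left]
    intro y h1 h2
    rcases mem_union.1 h1 with h3 | h3
    · exact ((mP y).1 h2).1.2 ((mA y).1 h3).2
    · exact ((mB y).1 h3).1 ((mP y).1 h2).1.1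
  have dABPR : Disjoint (A ∪ B ∪ P) R := by
    rw [disjoint_left]
    intro y h1 h2
    have h4 := (mR y).1 h2
    rcases mem_union.1 h1 with h3 | h3
    · rcases mem_union.1 h3 with h3 | h3
      · exact h4.1.2 ((mA y).1 h3).1
      · exact ((mB y).1 h3).2.1 h4.1.1
    · exact h4.1.2 ((mP y).1 h3).1.1
  have dZ : Disjoint (A ∪ B ∪ P ∪ R) Z := by
    rw [disjoint_left]
    intro y h1 h2
    rw [mem_union, mem_union, mem_union, mA, mB, mP, mR] at h1
    rcases (mZ y).1 h2 with rfl | rfl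
    · tauto
    · tauto
  have hun : A ∪ B ∪ P ∪ R ∪ Z = univ := by
    ext y
    rw [mem_union, mem_union, mem_union, mem_union, mA, mB, mP, mR, mZ]
    constructor
    · intro _
      exact mem_univ y
    · intro _
      by_cases e1 : y = v
      · exact Or.inr (Or.inl e1)
      by_cases e2 : y = x
      · exact Or.inr (Or.inr e2)
      tauto
  have cZ : Z.card ≤ 2 := card_le_two
  -- cardinalities
  have cN : A.card + B.card + P.card + R.card + Z.card = N := by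
    rw [← card_union_of_disjoint dAB, ← card_union_of_disjoint dABP,
      ← card_union_of_disjoint dABPR, ← card_union_of_disjoint dZ, hun, card_univ]
  have cvA : A.card + P.card ≤ (dg G v).card ∧ (dg G v).card ≤ A.card + P.card + 1 := by
    have e1 : (dg G v \ dg G x).card + A.card = (dg G v).card := by
      rw [hA]
      exact card_sdiff_add_card_inter _ _
    have e2 : P.card ≤ (dg G v \ dg G x).card := card_le_card sdiff_subset
    have e3 : (dg G v \ dg G x).card ≤ P.card + 1 := by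
      have := card_le_card_sdiff_add_card (s := dg G v \ dg G x) (t := {x})
      rwa [card_singleton] at this
    exact t3 e1 e2 e3
  have cxA : A.card + R.card ≤ (dg G x).card ∧ (dg G x).card ≤ A.card + R.card + 1 := by
    have e1 : (dg G x \ dg G v).card + A.card = (dg G x).card := by
      rw [hA, inter_comm]
      exact card_sdiff_add_card_inter _ _
    have e2 : R.card ≤ (dg G x \ dg G v).card := card_le_card sdiff_subset
    have e3 : (dg G x \ dg G v).card ≤ R.card + 1 := by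
      have := card_le_card_sdiff_add_card (s := dg G x \ dg G v) (t := {v})
      rwa [card_singleton] at this
    exact t3 e1 e2 e3
  have cR : (dg G x \ dg G v).card ≤ R.card + 1 := by
    have := card_le_card_sdiff_add_card (s := dg G x \ dg G v) (t := {v})
    rwa [card_singleton] at this
  have cP : (dg G x \ dg G v).card ≤ P.card + 2 * k + 1 := (hFAC V G k v x hn).1
  obtain ⟨nv1, nv2⟩ := hn v
  obtain ⟨nx1, nx2⟩ := hn x
  rw [← hN] at nv1 nv2 nx1 nx2
  -- the sets `P0`, `R0`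
  obtain ⟨P0, sP0, cP0, gP0⟩ := choose hMIN G A B P (P.card - (a 1 + k)) (Nat.sub_le _ _)
  obtain ⟨R0, sR0, cR0, gR0⟩ := choose hMIN G A B R (R.card - (a 1 + k)) (Nat.sub_le _ _)
  have bR' : (dg G x \ dg G v).card ≤ R.card + 2 * k + 1 :=
    cR.trans (Nat.add_le_add_right (Nat.le_add_right _ _) 1)
  obtain ⟨bP, b8P⟩ := bnd1 q1 q2 q3 q5 hfar cP
  obtain ⟨bR, b8R⟩ := bnd1 q1 q2 q3 q5 hfar bR'
  have cDP : (P \ P0).card = a 1 + k := by
    rw [card_sdiff_of_subset sP0, cP0]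
    exact Nat.sub_sub_self bP
  have cDR : (R \ R0).card = a 1 + k := by
    rw [card_sdiff_of_subset sR0, cR0]
    exact Nat.sub_sub_self bR
  obtain ⟨-, -, -, -⟩ := hcon (R \ R0)
  obtain n1 := (hcon (R \ R0)).1
  obtain n2 := (hcon (P \ P0)).2.1
  obtain n3 := (hcon (P \ P0)).2.2.1
  obtain n4 := (hcon (R \ R0)).2.2.2
  -- membership in the complement
  have mc : ∀ (u w : V), w ∈ dg Gᶜ u ↔ w ≠ u ∧ w ∉ dg G u := fun u w =>
    Pool.Agent.SFB.mem_dg_compl
  -- the unions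
  have uBR : (B ∪ R0).card = B.card + R0.card := by
    apply card_union_of_disjoint
    rw [disjoint_left]
    intro y h1 h2
    exact ((mB y).1 h1).2.1 ((mR y).1 (sR0 h2)).1.1
  have uBP : (B ∪ P0).card = B.card + P0.card := by
    apply card_union_of_disjoint
    rw [disjoint_left]
    intro y h1 h2
    exact ((mB y).1 h1).1 ((mP y).1 (sP0 h2)).1.1
  have uAR : (A ∪ R0).card = A.card + R0.card := by
    apply card_union_of_disjoint
    rw [disjoint_left]
    intro y h1 h2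
    exact ((mR y).1 (sR0 h2)).1.2 ((mA y).1 h1).1
  have uAP : (A ∪ P0).card = A.card + P0.card := by
    apply card_union_of_disjoint
    rw [disjoint_left]
    intro y h1 h2
    exact ((mP y).1 (sP0 h2)).1.2 ((mA y).1 h1).2
  have lBR : 2 * h + 4 * e ≤ (B ∪ R0).card := by
    rw [uBR]
    exact bnd2 hh q6 q4 q5 hω (out1 cN cZ cvA.1 nv2) cR0 bR
  have lBP : 2 * h + 4 * e ≤ (B ∪ P0).card := by
    rw [uBP]
    exact bnd2 hh q6 q4 q5 hω (out2 cN cZ cxA.1 nx2) cP0 bP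
  have lAR : 2 * h + 4 * e ≤ (A ∪ R0).card := by
    rw [uAR]
    exact bnd2 hh q6 q4 q5 hω (inn cxA.2 nx1) cR0 bR
  have lAP : 2 * h + 4 * e ≤ (A ∪ P0).card := by
    rw [uAP]
    exact bnd2 hh q6 q4 q5 hω (inn cvA.2 nv1) cP0 bP
  -- (1)
  have k1 : ∀ T : Finset V, T ⊆ B ∪ R →
      (T.filter (fun y => h ≤ (dg G y ∩ (B ∪ R0)).card)).card ≤ k := by
    intro T hT
    refine exc_card (D := R \ R0) ?_ cDR n1 ?_ ?_
    · intro y hy
      have := (mR y).1 (mem_sdiff.1 hy).1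
      exact mem_sdiff.2 this.1
    · intro y hy
      rcases mem_union.1 (hT hy) with h1 | h1
      · have h2 := (mB y).1 h1
        exact ⟨h2.2.2.1, h2.2.2.2, h2.1⟩
      · have h2 := (mR y).1 h1
        exact ⟨h2.2, fun h3 => hxx (h3 ▸ h2.1.1), h2.1.2⟩
    · intro y hy
      rw [mem_sdiff, mem_sdiff]
      rcases mem_union.1 hy with h1 | h1
      · have h2 := (mB y).1 h1
        exact ⟨⟨mem_univ _, h2.1⟩, fun h3 => h2.2.1 ((mR y).1 (mem_sdiff.1 h3).1).1.1⟩
      · exact ⟨⟨mem_univ _, ((mR y).1 (sR0 h1)).1.2⟩, fun h3 => (mem_sdiff.1 h3).2 h1⟩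
  -- (2)
  have k2 : ∀ T : Finset V, T ⊆ A ∪ P →
      (T.filter (fun y => h ≤ (dg Gᶜ y ∩ (A ∪ P0)).card)).card ≤ k := by
    intro T hT
    refine exc_card (D := P \ P0) ?_ cDP n2 ?_ ?_
    · intro y hy
      have h1 := (mP y).1 (mem_sdiff.1 hy).1
      rw [mem_sdiff, mc, mc]
      exact ⟨⟨h1.2, h1.1.2⟩, fun h2 => h2.2 h1.1.1⟩
    · intro y hy
      have h1 : y ∈ dg G v ∧ y ≠ x := by
        rcases mem_union.1 (hT hy) with h1 | h1
        · have h2 := (mA y).1 h1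
          exact ⟨h2.1, fun h3 => hxx (h3 ▸ h2.2)⟩
        · have h2 := (mP y).1 h1
          exact ⟨h2.1.1, h2.2⟩
      exact ⟨fun h3 => hvv (h3 ▸ h1.1), h1.2, fun h3 => ((mc v y).1 h3).2 h1.1⟩
    · intro y hy
      rw [mem_sdiff, mem_sdiff]
      rcases mem_union.1 hy with h1 | h1
      · have h2 := (mA y).1 h1
        exact ⟨⟨mem_univ _, fun h3 => ((mc v y).1 h3).2 h2.1⟩,
          fun h3 => ((mP y).1 (mem_sdiff.1 h3).1).1.2 h2.2⟩
      · exact ⟨⟨mem_univ _, fun h3 => ((mc v y).1 h3).2 ((mP y).1 (sP0 h1)).1.1⟩,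
          fun h3 => (mem_sdiff.1 h3).2 h1⟩
  -- (3)
  have k3 : ∀ T : Finset V, T ⊆ B ∪ P →
      (T.filter (fun y => h ≤ (dg G y ∩ (B ∪ P0)).card)).card ≤ k := by
    intro T hT
    refine exc_card (D := P \ P0) ?_ cDP n3 ?_ ?_
    · intro y hy
      have := (mP y).1 (mem_sdiff.1 hy).1
      exact mem_sdiff.2 this.1
    · intro y hy
      rcases mem_union.1 (hT hy) with h1 | h1
      · have h2 := (mB y).1 h1
        exact ⟨h2.2.2.2, h2.2.2.1, h2.2.1⟩
      · have h2 := (mP y).1 h1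
        exact ⟨h2.2, fun h3 => hvv (h3 ▸ h2.1.1), h2.1.2⟩
    · intro y hy
      rw [mem_sdiff, mem_sdiff]
      rcases mem_union.1 hy with h1 | h1
      · have h2 := (mB y).1 h1
        exact ⟨⟨mem_univ _, h2.2.1⟩, fun h3 => h2.1 ((mP y).1 (mem_sdiff.1 h3).1).1.1⟩
      · exact ⟨⟨mem_univ _, ((mP y).1 (sP0 h1)).1.2⟩, fun h3 => (mem_sdiff.1 h3).2 h1⟩
  -- (4)
  have k4 : ∀ T : Finset V, T ⊆ A ∪ R →
      (T.filter (fun y => h ≤ (dg Gᶜ y ∩ (A ∪ R0)).card)).card ≤ k := by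
    intro T hT
    refine exc_card (D := R \ R0) ?_ cDR n4 ?_ ?_
    · intro y hy
      have h1 := (mR y).1 (mem_sdiff.1 hy).1
      rw [mem_sdiff, mc, mc]
      exact ⟨⟨h1.2, h1.1.2⟩, fun h2 => h2.2 h1.1.1⟩
    · intro y hy
      have h1 : y ∈ dg G x ∧ y ≠ v := by
        rcases mem_union.1 (hT hy) with h1 | h1
        · have h2 := (mA y).1 h1
          exact ⟨h2.2, fun h3 => hvv (h3 ▸ h2.1)⟩
        · have h2 := (mR y).1 h1
          exact ⟨h2.1.1, h2.2⟩
      exact ⟨fun h3 => hxx (h3 ▸ h1.1), h1.2, fun h3 => ((mc x y).1 h3).2 h1.1⟩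
    · intro y hy
      rw [mem_sdiff, mem_sdiff]
      rcases mem_union.1 hy with h1 | h1
      · have h2 := (mA y).1 h1
        exact ⟨⟨mem_univ _, fun h3 => ((mc x y).1 h3).2 h2.2⟩,
          fun h3 => ((mR y).1 (mem_sdiff.1 h3).1).1.2 h2.1⟩
      · exact ⟨⟨mem_univ _, fun h3 => ((mc x y).1 h3).2 ((mR y).1 (sR0 h1)).1.1⟩,
          fun h3 => (mem_sdiff.1 h3).2 h1⟩
  -- the sums
  have e4 : 4 * e ≤ Fintype.card V := le_trans (Nat.mul_le_mul_right e (by norm_num)) q2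
  have e100 : 100 * k + 100 ≤ e := small q3 q5
  have e1' : 1 ≤ Fintype.card V := pos4 e100 e4
  have s1 := (hSUM V G A (A ∪ P0) k e e4).1 (high lAP (k2 A subset_union_left))
  have s2 := (hSUM V G A (A ∪ R0) k e e4).1 (high lAR (k4 A subset_union_left))
  have s3 := (hSUM V G B (B ∪ R0) k e e4).2 (low lBR (k1 B subset_union_left))
  have s4 := (hSUM V G B (B ∪ P0) k e e4).2 (low lBP (k3 B subset_union_left))
  have s5 := (hSUM V G R (B ∪ R0) k e e4).2 (low lBR (k1 R subset_union_right))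
  have s6 := (hSUM V G R (A ∪ R0) k e e4).1 (high lAR (k4 R subset_union_right))
  have s7 := (hSUM V G P (A ∪ P0) k e e4).1 (high lAP (k2 P subset_union_right))
  have s8 := (hSUM V G P (B ∪ P0) k e e4).2 (low lBP (k3 P subset_union_right))
  refine hCNT V G A B P R Z P0 R0 k e dAB dABP dABPR dZ hun cZ sP0 sR0 hn ?_ ?_ ?_ ?_ ?_ ?_ ?_ ?_
    gP0 gR0
  · exact e1'
  · exact e100
  · exact b8P
  · exact b8R
  · linarith only [s1, s2]
  · linarith only [s3, s4]
  · linarith only [s5, s6]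
  · linarith only [s7, s8]

end Pool.Agent.SFI
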