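import Pool.Agent.SFI.Targets

/-!
# SFI, target FA2: one of the two degrees is small
-/

set_option autoImplicit false

open Finset

namespace Pool.Agent.SFI

open Pool.Agent.SFB (Con dg nc)

theorem p_FA2 (hFAR : T_FAR) (hFAC : T_FAC) (hFE2 : T_FE2) : T_FA2 := by
  intro V _ _ G a k e v hP hN hs hG hGc
  have hk2 := hP.k2
  have hek := hP.ek
  have heN := hP.eN
  by_contra hcon
  rw [not_or, not_lt, not_lt] at hcon
  obtain ⟨h1, h2⟩ := hcon
  have hX := hFAR V G k e v hN (by omega) (by omega) (by omega)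
  set X : Finset V := univ.filter
    (fun x => Fintype.card V ≤ 4 * (dg G x \ dg G v).card + 8 * e) with hXdef
  have hXm : ∀ x ∈ X, Fintype.card V ≤ 4 * (dg G x \ dg G v).card + 8 * e := by
    intro x hx
    rw [hXdef, mem_filter] at hx
    exact hx.2
  have hvX : v ∉ X := by
    intro hv
    have h := hXm v hv
    rw [sdiff_self, Finset.bot_eq_empty, card_empty] at h
    omega
  set T1 : Finset V := X ∩ dg Gᶜ v with hT1
  set T2 : Finset V := X ∩ dg G v with hT2
  have hcov : X ⊆ T1 ∪ T2 := by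
    intro x hx
    have hxv : x ≠ v := fun h => hvX (h ▸ hx)
    rw [mem_union, hT1, hT2, mem_inter, mem_inter, Pool.Agent.SFB.mem_dg_compl]
    by_cases hd : x ∈ dg G v
    · exact Or.inr ⟨hx, hd⟩
    · exact Or.inl ⟨hx, hxv, hd⟩
  have hcard : X.card ≤ T1.card + T2.card := (card_le_card hcov).trans (card_union_le _ _)
  rcases (by omega : k ≤ T1.card + 1 ∨ k ≤ T2.card + 1) with hT | hT
  · apply hG
    refine hFE2 V G a k v T1 (by omega) hT (fun h => hvX (mem_inter.mp h).1) ?_ h1 ?_
    · rw [Finset.disjoint_left]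
      intro x hx
      exact (Pool.Agent.SFB.mem_dg_compl.mp (mem_inter.mp hx).2).2
    · intro t ht
      have h := hXm t (mem_inter.mp ht).1
      omega
  · apply hGc
    refine hFE2 V Gᶜ a k v T2 (by omega) hT (fun h => hvX (mem_inter.mp h).1) ?_ h2 ?_
    · rw [Finset.disjoint_left]
      intro x hx hx'
      exact (Pool.Agent.SFB.mem_dg_compl.mp hx').2 (mem_inter.mp hx).2
    · intro t ht
      have h := hXm t (mem_inter.mp ht).1
      obtain ⟨h3, h4⟩ := hFAC V G k v t hN
      omega

end Pool.Agent.SFI
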