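import Pool.Agent.SFI.Targets

/-!
SFI, FAC: far vertices in the complement.
-/

set_option autoImplicit false

open Finset

namespace Pool.Agent.SFI

open Pool.Agent.SFB (Con dg nc)

theorem FAC_.sub {V : Type} [Fintype V] [DecidableEq V] (G : SimpleGraph V) (v x : V) :
    (dg G v \ dg G x) \ {x} ⊆ dg Gᶜ x \ dg Gᶜ v := by
  intro w hw
  rw [mem_sdiff, mem_sdiff, mem_singleton] at hw
  obtain ⟨⟨h1, h2⟩, h3⟩ := hw
  rw [Pool.Agent.SFB.mem_dg] at h1 h2
  rw [mem_sdiff, Pool.Agent.SFB.mem_dg, Pool.Agent.SFB.mem_dg, SimpleGraph.compl_adj,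
    SimpleGraph.compl_adj]
  exact ⟨⟨fun h => h3 h.symm, h2⟩, fun h => h.2 h1⟩

theorem p_FAC : T_FAC := by
  intro V _ _ G k v x hN
  refine ⟨?_, card_le_card (FAC_.sub G v x)⟩
  have h1 := card_sdiff_add_card_inter (dg G x) (dg G v)
  have h2 := card_sdiff_add_card_inter (dg G v) (dg G x)
  rw [inter_comm] at h2
  have h3 := (hN x).2
  have h4 := (hN v).1
  have h5 := card_sdiff_add_card_inter (dg G v \ dg G x) {x}
  have h6 : ((dg G v \ dg G x) ∩ {x}).card ≤ 1 := by
    have := card_le_card (inter_subset_right : (dg G v \ dg G x) ∩ {x} ⊆ {x})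
    rwa [card_singleton] at this
  omega

end Pool.Agent.SFI
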