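import Pool.Agent.SFI.Targets

/-!
# SFI: FAR, many far vertices (double counting)
-/

set_option autoImplicit false

open Finset

namespace Pool.Agent.SFI

open Pool.Agent.SFB (Con dg nc)

namespace FAR_

variable {V : Type} [Fintype V] [DecidableEq V]

/-- double counting -/
theorem dbl (G : SimpleGraph V) (v : V) :
    ∑ x, (dg G x \ dg G v).card = ∑ w ∈ univ \ dg G v, (dg G w).card := by
  have h1 : ∀ x, (dg G x \ dg G v).card = ∑ w ∈ univ \ dg G v, if w ∈ dg G x then 1 else 0 := by
    intro x
    rw [← card_filter]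
    congr 1
    ext w
    simp only [mem_sdiff, mem_filter, mem_univ, true_and]
    tauto
  have h2 : ∀ w, (dg G w).card = ∑ x, if w ∈ dg G x then 1 else 0 := by
    intro w
    rw [← card_filter]
    congr 1
    ext x
    simp only [mem_filter, mem_univ, true_and, Pool.Agent.SFB.mem_dg]
    exact G.adj_comm _ _
  rw [sum_congr rfl fun x _ => h1 x, sum_comm]
  exact sum_congr rfl fun w _ => (h2 w).symm

end FAR_

open FAR_ in
theorem p_FAR : T_FAR := by
  intro V _ _ G k e v hn hke hk hN
  set F : Finset V := univ.filter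
    (fun x => Fintype.card V ≤ 4 * (dg G x \ dg G v).card + 8 * e) with hF
  by_cases he : Fintype.card V ≤ 8 * e
  · have h1 : F = univ := by
      rw [hF, filter_eq_self]
      intro x _
      omega
    rw [h1, card_univ]
    omega
  push Not at he
  obtain ⟨M, hM⟩ : ∃ M, Fintype.card V = 8 * e + M := ⟨Fintype.card V - 8 * e, by omega⟩
  -- upper bound
  have hup : 4 * ∑ x, (dg G x \ dg G v).card ≤
      4 * (F.card * Fintype.card V) + Fintype.card V * M := by
    have h1 : ∀ x, 4 * (dg G x \ dg G v).card ≤
        (if x ∈ F then 4 * Fintype.card V else 0) + M := by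
      intro x
      have h2 : (dg G x \ dg G v).card ≤ Fintype.card V := card_le_univ _
      split_ifs with hx
      · omega
      · rw [hF, mem_filter] at hx
        have h3 : ¬ (Fintype.card V ≤ 4 * (dg G x \ dg G v).card + 8 * e) :=
          fun h4 => hx ⟨mem_univ _, h4⟩
        omega
    rw [mul_sum]
    refine (sum_le_sum fun x _ => h1 x).trans ?_
    rw [sum_add_distrib, sum_const, card_univ, smul_eq_mul]
    gcongr
    rw [← sum_filter, sum_const, smul_eq_mul]
    have h5 : univ.filter (fun x => x ∈ F) = F := by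
      ext x
      simp
    rw [h5]
    apply le_of_eq
    ring
  -- lower bound
  have hlow : (Fintype.card V - 2 * k) * (Fintype.card V - 2 * k) ≤
      4 * ∑ x, (dg G x \ dg G v).card := by
    rw [dbl]
    have h1 : ∀ w, Fintype.card V - 2 * k ≤ 2 * (dg G w).card := by
      intro w
      have := (hn w).1
      omega
    have h2 : Fintype.card V - 2 * k ≤ 2 * (univ \ dg G v).card := by
      have h3 := (hn v).2
      have h4 := card_sdiff_add_card_eq_card (subset_univ (dg G v))
      rw [card_univ] at h4
      omega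
    have h5 : (univ \ dg G v).card * (Fintype.card V - 2 * k) ≤
        ∑ w ∈ univ \ dg G v, 2 * (dg G w).card := by
      rw [← smul_eq_mul, ← sum_const]
      exact sum_le_sum fun w _ => h1 w
    rw [← mul_sum] at h5
    calc (Fintype.card V - 2 * k) * (Fintype.card V - 2 * k) ≤
        2 * (univ \ dg G v).card * (Fintype.card V - 2 * k) := Nat.mul_le_mul_right _ h2
      _ = 2 * ((univ \ dg G v).card * (Fintype.card V - 2 * k)) := by ring
      _ ≤ 2 * (2 * ∑ w ∈ univ \ dg G v, (dg G w).card) := Nat.mul_le_mul_left _ h5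
      _ = 4 * ∑ w ∈ univ \ dg G v, (dg G w).card := by ring
  have hfin := hlow.trans hup
  obtain ⟨B, hB⟩ : ∃ B, Fintype.card V = 2 * k + B := ⟨Fintype.card V - 2 * k, by omega⟩
  have hB2 : Fintype.card V - 2 * k = B := by omega
  rw [hB2] at hfin
  by_contra hcon
  push Not at hcon
  have hN0 : 0 < Fintype.card V := by omega
  -- pass to the integers
  have z1 : ((B : ℤ)) * B ≤ 4 * (F.card * (Fintype.card V : ℤ)) + Fintype.card V * M := by
    exact_mod_cast hfin
  have z2 : (Fintype.card V : ℤ) = 8 * e + M := by exact_mod_cast hM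
  have z3 : (Fintype.card V : ℤ) = 2 * k + B := by exact_mod_cast hB
  have z4 : (F.card : ℤ) + 1 ≤ 3 * k := by exact_mod_cast hcon
  have z5 : (2 : ℤ) * k ≤ e := by exact_mod_cast hke
  have z6 : (0 : ℤ) < Fintype.card V := by exact_mod_cast hN0
  have z7 : (1 : ℤ) ≤ k := by exact_mod_cast hk
  set N : ℤ := (Fintype.card V : ℤ) with hNdef
  have e1 : (B : ℤ) = N - 2 * k := by linarith
  have e2 : (M : ℤ) = N - 8 * e := by linarith
  rw [e1, e2] at z1
  nlinarith [mul_le_mul_of_nonneg_right z4 z6.le, mul_le_mul_of_nonneg_right z5 z6.le,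
    mul_pos z6 (lt_of_lt_of_le one_pos z7)]

end Pool.Agent.SFI
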