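import Pool.Agent.SFI.Targets

/-!
# SFI, block FE2: embedding with far centres
-/

set_option autoImplicit false

open Finset

namespace Pool.Agent.SFI

open Pool.Agent.SFB (Con dg nc)

namespace FE2_

variable {V : Type}

/-- the centres -/
noncomputable def cc (T : Finset V) (v : V) (t : ℕ) : V :=
  if h : 1 ≤ t ∧ t - 1 < T.card then (T.equivFin.symm ⟨t - 1, h.2⟩ : V) else v

lemma cc_zero (T : Finset V) (v : V) : cc T v 0 = v := by
  unfold cc
  rw [dif_neg (by omega)]

lemma cc_mem {T : Finset V} {v : V} {t : ℕ} (h1 : 1 ≤ t) (h2 : t - 1 < T.card) :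
    cc T v t ∈ T := by
  unfold cc
  rw [dif_pos ⟨h1, h2⟩]
  exact (T.equivFin.symm ⟨t - 1, h2⟩).2

lemma cc_inj {T : Finset V} {v : V} {k : ℕ} (hv : v ∉ T) (hk : k ≤ T.card + 1) :
    Set.InjOn (cc T v) (Set.Iio k) := by
  intro s hs t ht h
  rw [Set.mem_Iio] at hs ht
  rcases Nat.eq_zero_or_pos s with rfl | hs0
  · rcases Nat.eq_zero_or_pos t with rfl | ht0
    · rfl
    · exfalso
      rw [cc_zero] at h
      exact hv (h ▸ cc_mem ht0 (by omega))
  · rcases Nat.eq_zero_or_pos t with rfl | ht0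
    · exfalso
      rw [cc_zero] at h
      exact hv (h ▸ cc_mem hs0 (by omega))
    · unfold cc at h
      rw [dif_pos ⟨hs0, by omega⟩, dif_pos ⟨ht0, by omega⟩] at h
      have h1 := T.equivFin.symm.injective (Subtype.ext h)
      have h2 := congrArg Fin.val h1
      simp only at h2
      omega

end FE2_

theorem p_FE2 (hEMB : Pool.Agent.SFB.T_EMB) : T_FE2 := by
  intro V _ _ G a k v T hk hkT hv hT ha0 hT2
  set c := FE2_.cc T v with hc
  have hinj := FE2_.cc_inj hv hkT
  have hcm : ∀ t, 1 ≤ t → t < k → c t ∈ T := fun t h1 h2 => FE2_.cc_mem h1 (by omega)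
  set C := (range k).image c with hC
  have hCc : C.card ≤ k := by
    have h1 := card_image_le (s := range k) (f := c)
    rw [card_range] at h1
    exact h1
  have hCd : Disjoint (dg G v) C := by
    rw [disjoint_left]
    intro w hw hwC
    rw [hC, mem_image] at hwC
    obtain ⟨t, ht, rfl⟩ := hwC
    rcases Nat.eq_zero_or_pos t with rfl | ht0
    · rw [hc, FE2_.cc_zero] at hw
      exact Pool.Agent.SFB.not_mem_dg hw
    · exact disjoint_left.1 hT (hcm t ht0 (mem_range.1 ht)) hw
  refine hEMB V G k a c hinj ?_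
  intro J hJ hJne
  have hdgv : 0 ∈ J → dg G v ⊆ nc G c J \ C := by
    intro h0 w hw
    rw [mem_sdiff, Pool.Agent.SFB.mem_nc]
    refine ⟨⟨0, h0, ?_⟩, disjoint_left.1 hCd hw⟩
    rw [hc, FE2_.cc_zero]
    exact hw
  by_cases hJ1 : ∃ t ∈ J, 1 ≤ t
  · obtain ⟨t, ht, ht1⟩ := hJ1
    have htk : t < k := mem_range.1 (hJ ht)
    have hbig : ∑ i ∈ Ico 1 k, a i ≤ ((dg G (c t) \ dg G v) \ C).card := by
      have h1 := hT2 (c t) (hcm t ht1 htk)
      have h2 := le_card_sdiff C (dg G (c t) \ dg G v)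
      omega
    have hsub : (dg G (c t) \ dg G v) \ C ⊆ nc G c J \ C := by
      intro w hw
      rw [mem_sdiff, mem_sdiff] at hw
      rw [mem_sdiff, Pool.Agent.SFB.mem_nc]
      exact ⟨⟨t, ht, hw.1.1⟩, hw.2⟩
    have hsum : ∑ i ∈ J.erase 0, a i ≤ ∑ i ∈ Ico 1 k, a i := by
      apply sum_le_sum_of_subset
      intro i hi
      rw [mem_erase] at hi
      rw [mem_Ico]
      exact ⟨Nat.pos_of_ne_zero hi.1, mem_range.1 (hJ hi.2)⟩
    by_cases h0 : 0 ∈ J
    · rw [← add_sum_erase J a h0]
      have hdis : Disjoint (dg G v) ((dg G (c t) \ dg G v) \ C) := by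
        rw [disjoint_left]
        intro w hw hw2
        rw [mem_sdiff, mem_sdiff] at hw2
        exact hw2.1.2 hw
      calc a 0 + ∑ i ∈ J.erase 0, a i
          ≤ (dg G v).card + ((dg G (c t) \ dg G v) \ C).card := by omega
        _ = (dg G v ∪ ((dg G (c t) \ dg G v) \ C)).card := (card_union_of_disjoint hdis).symm
        _ ≤ _ := card_le_card (union_subset (hdgv h0) hsub)
    · rw [erase_eq_of_notMem h0] at hsum
      exact (hsum.trans hbig).trans (card_le_card hsub)
  · push Not at hJ1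
    have hJ0 : J = {0} := by
      apply eq_singleton_iff_nonempty_unique_mem.2
      refine ⟨hJne, fun t ht => ?_⟩
      have := hJ1 t ht
      omega
    have h0 : 0 ∈ J := by
      rw [hJ0]
      exact mem_singleton_self 0
    have hs : ∑ t ∈ J, a t = a 0 := by
      rw [hJ0, sum_singleton]
    rw [hs]
    exact ha0.trans (card_le_card (hdgv h0))

end Pool.Agent.SFI
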