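import Pool.Agent.SFI.Targets

/-!
# SFI, target GRE: greedy extension by double counting
-/

set_option autoImplicit false

open Finset

namespace Pool.Agent.SFI

open Pool.Agent.SFB (Con dg nc)

namespace GRE_

variable {V : Type} [Fintype V] [DecidableEq V]

theorem dcount (G : SimpleGraph V) (W : Finset V) :
    ∑ u, (dg G u ∩ W).card = ∑ w ∈ W, (dg G w).card := by
  classical
  have h1 : ∀ u, (dg G u ∩ W).card = ∑ w ∈ W, if w ∈ dg G u then 1 else 0 := by
    intro u
    rw [← Finset.card_filter, Finset.filter_mem_eq_inter, Finset.inter_comm]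
  have h2 : ∀ w, (dg G w).card = ∑ u, if w ∈ dg G u then 1 else 0 := by
    intro w
    rw [← Finset.card_filter]
    congr 1
    ext u
    rw [Finset.mem_filter, Pool.Agent.SFB.mem_dg_comm]
    simp
  rw [Finset.sum_congr rfl fun u _ => h1 u, Finset.sum_comm]
  exact Finset.sum_congr rfl fun w _ => (h2 w).symm

/-- a vertex outside of the centres with many neighbours in `W` -/
theorem exists_centre (G : SimpleGraph V) (W : Finset V) (k m j : ℕ) (c : ℕ → V) (hk : 1 ≤ k)
    (hj : j ≤ k) (hdeg : ∀ w, Fintype.card V ≤ 2 * (dg G w).card + 4 * k)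
    (hW : 2 * m + 8 * k ≤ W.card) :
    ∃ u, u ∉ (range j).image c ∧ m + k ≤ (dg G u ∩ W).card := by
  classical
  by_contra hcon
  push Not at hcon
  set N := Fintype.card V with hNdef
  set C := (range j).image c with hC
  have hWN : W.card ≤ N := card_le_univ W
  have h1 : ∑ u, (dg G u ∩ W).card = ∑ u ∈ C, (dg G u ∩ W).card +
      ∑ u ∈ univ \ C, (dg G u ∩ W).card := by
    rw [add_comm]
    exact (sum_sdiff (subset_univ C)).symm
  have h2 : ∑ u ∈ C, (dg G u ∩ W).card ≤ k * W.card := by
    have h3 : ∑ u ∈ C, (dg G u ∩ W).card ≤ ∑ _u ∈ C, W.card :=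
      sum_le_sum fun u _ => card_le_card inter_subset_right
    rw [sum_const, smul_eq_mul] at h3
    refine h3.trans (Nat.mul_le_mul_right _ ?_)
    refine (card_image_le).trans ?_
    rw [card_range]
    exact hj
  have h4 : ∑ u ∈ univ \ C, (dg G u ∩ W).card ≤ N * (m + k - 1) := by
    have h3 : ∑ u ∈ univ \ C, (dg G u ∩ W).card ≤ ∑ _u ∈ univ \ C, (m + k - 1) := by
      refine sum_le_sum fun u hu => ?_
      have := hcon u (mem_sdiff.mp hu).2
      omega
    rw [sum_const, smul_eq_mul] at h3
    exact h3.trans (Nat.mul_le_mul_right _ (card_le_univ _))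
  have h5 : N * W.card ≤ 2 * ∑ w ∈ W, (dg G w).card + 4 * k * W.card := by
    have h6 : ∑ _w ∈ W, N ≤ ∑ w ∈ W, (2 * (dg G w).card + 4 * k) :=
      sum_le_sum fun w _ => hdeg w
    rw [sum_const, smul_eq_mul, sum_add_distrib, ← mul_sum, sum_const, smul_eq_mul] at h6
    calc N * W.card = W.card * N := mul_comm _ _
      _ ≤ 2 * ∑ w ∈ W, (dg G w).card + W.card * (4 * k) := h6
      _ = _ := by ring
  rw [← dcount, h1] at h5
  -- `N |W| ≤ 2 k |W| + 2 N (m + k - 1) + 4 k |W|`
  have h7 : N * W.card ≤ 6 * (k * W.card) + 2 * (N * (m + k - 1)) := by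
    have e : 4 * k * W.card = 4 * (k * W.card) := by ring
    rw [e] at h5
    omega
  have h8 : k * W.card ≤ k * N := Nat.mul_le_mul_left k hWN
  have h9 : N * (2 * m + 8 * k) ≤ N * W.card := Nat.mul_le_mul_left N hW
  obtain ⟨q, rfl⟩ : ∃ q, k = q + 1 := ⟨k - 1, by omega⟩
  have e1 : m + (q + 1) - 1 = m + q := by omega
  rw [e1] at h7
  nlinarith

/-- one step -/
theorem step (G : SimpleGraph V) (a : ℕ → ℕ) (k e j : ℕ) (Z : Finset V) (c : ℕ → V)
    (D : ℕ → Finset V) (hD : DPar a k e (Fintype.card V))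
    (hdeg : ∀ w, Fintype.card V ≤ 2 * (dg G w).card + 4 * k)
    (hZ : 2 * Z.card ≤ Fintype.card V + 2 * k) (hj : 1 ≤ j) (hjk : j < k)
    (hP : Psy G a k j Z c D) :
    ∃ (c' : ℕ → V) (D' : ℕ → Finset V), Psy G a k (j + 1) Z c' D' ∧ ∀ t < j, c' t = c t := by
  classical
  set N := Fintype.card V with hN
  set U := (Ico 1 j).biUnion D with hU
  set W := univ \ (Z ∪ U) with hW
  have hUc : U.card ≤ ∑ t ∈ Ico 1 j, (a t + k) := by
    refine card_biUnion_le.trans (le_of_eq (sum_congr rfl fun t ht => ?_))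
    rw [mem_Ico] at ht
    exact hP.crd t ht.1 ht.2
  have hsum : ∑ t ∈ Ico 1 j, (a t + k) = ∑ t ∈ Ico 1 j, a t + (j - 1) * k := by
    rw [sum_add_distrib, sum_const, Nat.card_Ico, smul_eq_mul]
  have hWc : N ≤ W.card + (Z.card + U.card) := by
    have h1 := card_sdiff_add_card_eq_card (subset_univ (Z ∪ U))
    have h2 := card_union_le Z U
    rw [card_univ, ← hN, ← hW] at h1
    omega
  have hhalf := hD.half hj hjk
  have hek := hD.ek
  have hk1 := hD.k1
  have hbig := hD.big
  have hk2 := hD.k2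
  have hjk' : (j - 1) * k ≤ k ^ 2 := by
    rw [pow_two]
    exact Nat.mul_le_mul_right k (by omega)
  have hW2 : 2 * a j + 8 * k ≤ W.card := by
    rw [hsum] at hUc
    omega
  obtain ⟨u, hu, hcard⟩ := exists_centre G W k (a j) j c (by omega) hjk.le hdeg hW2
  obtain ⟨S, hS, hSc⟩ := exists_subset_card_eq hcard
  have hSW : S ⊆ W := hS.trans inter_subset_right
  have hSd : S ⊆ dg G u := hS.trans inter_subset_left
  have hWZ : Disjoint W Z := by
    rw [hW, disjoint_left]
    intro x hx hxZ
    rw [mem_sdiff, mem_union, not_or] at hx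
    exact hx.2.1 hxZ
  have hWD : ∀ t, 1 ≤ t → t < j → Disjoint (D t) W := by
    intro t h1 h2
    rw [hW, disjoint_left]
    intro x hx hxW
    rw [mem_sdiff, mem_union, not_or] at hxW
    exact hxW.2.2 (mem_biUnion.mpr ⟨t, mem_Ico.mpr ⟨h1, h2⟩, hx⟩)
  have hc : ∀ t, t < j → Function.update c j u t = c t := fun t ht =>
    Function.update_of_ne (by omega) _ _
  have hDd : ∀ t, t < j → Function.update D j S t = D t := fun t ht =>
    Function.update_of_ne (by omega) _ _
  have hcj : Function.update c j u j = u := Function.update_self _ _ _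
  have hDj : Function.update D j S j = S := Function.update_self _ _ _
  have hnot : ∀ t, t < j → c t ≠ u := by
    intro t ht h
    exact hu (mem_image.mpr ⟨t, mem_range.mpr ht, h⟩)
  refine ⟨Function.update c j u, Function.update D j S, ⟨?_, ?_, ?_, ?_, ?_⟩, hc⟩
  · intro s hs t ht hst
    rw [Set.mem_Iio] at hs ht
    rcases Nat.lt_or_ge s j with h1 | h1
    · rcases Nat.lt_or_ge t j with h2 | h2
      · rw [hc s h1, hc t h2] at hst
        exact hP.inj (Set.mem_Iio.mpr h1) (Set.mem_Iio.mpr h2) hst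
      · have e2 : t = j := by omega
        rw [hc s h1, e2, hcj] at hst
        exact absurd hst (hnot s h1)
    · have e1 : s = j := by omega
      rcases Nat.lt_or_ge t j with h2 | h2
      · rw [hc t h2, e1, hcj] at hst
        exact absurd hst.symm (hnot t h2)
      · omega
  · intro t h1 h2
    rcases Nat.lt_or_ge t j with h3 | h3
    · rw [hc t h3, hDd t h3]
      exact hP.sub t h1 h3
    · have e2 : t = j := by omega
      rw [e2, hcj, hDj]
      exact hSd
  · intro t h1 h2
    rcases Nat.lt_or_ge t j with h3 | h3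
    · rw [hDd t h3]
      exact hP.avZ t h1 h3
    · have e2 : t = j := by omega
      rw [e2, hDj]
      exact disjoint_of_subset_left hSW hWZ
  · intro t h1 h2
    rcases Nat.lt_or_ge t j with h3 | h3
    · rw [hDd t h3]
      exact hP.crd t h1 h3
    · have e2 : t = j := by omega
      rw [e2, hDj]
      exact hSc
  · intro s t h1 h2 h3
    have hs : s < j := by omega
    rcases Nat.lt_or_ge t j with h4 | h4
    · rw [hDd s hs, hDd t h4]
      exact hP.dsj s t h1 h2 h4
    · have e2 : t = j := by omega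
      rw [hDd s hs, e2, hDj]
      exact disjoint_of_subset_right hSW (hWD s h1 hs)

end GRE_

open GRE_ in
theorem p_GRE : T_GRE := by
  intro V _ _ G a k e i Z c D hD hdeg hZ hi hik hP
  have key : ∀ m, i + m ≤ k → ∃ (c' : ℕ → V) (D' : ℕ → Finset V),
      Psy G a k (i + m) Z c' D' ∧ ∀ t < i, c' t = c t := by
    intro m
    induction m with
    | zero => exact fun _ => ⟨c, D, hP, fun _ _ => rfl⟩
    | succ m ih =>
      intro hm
      obtain ⟨c1, D1, hP1, hc1⟩ := ih (by omega)
      obtain ⟨c2, D2, hP2, hc2⟩ := step G a k e (i + m) Z c1 D1 hD hdeg hZ (by omega)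
        (by omega) hP1
      refine ⟨c2, D2, hP2, fun t ht => ?_⟩
      rw [hc2 t (by omega), hc1 t ht]
  obtain ⟨c', D', h1, h2⟩ := key (k - i) (by omega)
  rw [show i + (k - i) = k by omega] at h1
  exact ⟨c', D', h1, h2⟩

end Pool.Agent.SFI
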