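import Pool.Agent.SFI.Targets

/-!
# SFI: the bilinear form `gE` (target GSY)
-/

set_option autoImplicit false

open Finset

namespace Pool.Agent.SFI

open Pool.Agent.SFB (Con dg nc)

namespace GSY_

variable {V : Type} [Fintype V] [DecidableEq V]

omit [DecidableEq V] in
lemma mem_iff (G : SimpleGraph V) (t s : V) : s ∈ dg G t ↔ t ∈ dg G s := by
  rw [Pool.Agent.SFB.mem_dg, Pool.Agent.SFB.mem_dg]
  exact G.adj_comm _ _

/-- Double counting. -/
lemma count (G : SimpleGraph V) (T S : Finset V) :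
    ∑ t ∈ T, ((dg G t ∩ S).card : ℤ) = ∑ s ∈ S, ((dg G s ∩ T).card : ℤ) := by
  have h1 : ∀ A B : Finset V, ∑ t ∈ A, ((dg G t ∩ B).card : ℤ) =
      ∑ t ∈ A, ∑ s ∈ B, (if s ∈ dg G t then (1 : ℤ) else 0) := by
    intro A B
    refine sum_congr rfl (fun t _ => ?_)
    rw [inter_comm, ← filter_mem_eq_inter, card_filter]
    push_cast
    rfl
  rw [h1 T S, h1 S T, sum_comm]
  refine sum_congr rfl (fun s _ => sum_congr rfl (fun t _ => ?_))
  by_cases h : s ∈ dg G t
  · rw [if_pos h, if_pos ((mem_iff G t s).mp h)]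
  · rw [if_neg h, if_neg (fun h' => h ((mem_iff G t s).mpr h'))]

lemma gE_eq (G : SimpleGraph V) (T S : Finset V) :
    gE G T S = 2 * ∑ t ∈ T, ((dg G t ∩ S).card : ℤ) - (T.card : ℤ) * (S.card : ℤ) := by
  unfold gE
  rw [sum_sub_distrib, ← mul_sum, sum_const, nsmul_eq_mul]

lemma symm (G : SimpleGraph V) (T S : Finset V) : gE G T S = gE G S T := by
  rw [gE_eq, gE_eq, count G T S, mul_comm (T.card : ℤ)]

lemma left (G : SimpleGraph V) (T T' S : Finset V) (h : Disjoint T T') :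
    gE G (T ∪ T') S = gE G T S + gE G T' S := by
  unfold gE
  exact sum_union h

lemma bound (G : SimpleGraph V) (T S : Finset V) : |gE G T S| ≤ T.card * S.card := by
  unfold gE
  refine (abs_sum_le_sum_abs _ _).trans ?_
  have h : ∀ t ∈ T, |2 * ((dg G t ∩ S).card : ℤ) - (S.card : ℤ)| ≤ (S.card : ℤ) := by
    intro t _
    have h1 : (dg G t ∩ S).card ≤ S.card := card_le_card inter_subset_right
    rw [abs_le]
    constructor <;> omega
  refine (sum_le_sum h).trans ?_
  rw [sum_const, nsmul_eq_mul]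

end GSY_

theorem p_GSY : T_GSY := by
  intro V _ _ G
  refine ⟨GSY_.symm G, fun T S S' h => ?_, GSY_.left G, GSY_.bound G⟩
  rw [GSY_.symm G T (S ∪ S'), GSY_.left G S S' T h, GSY_.symm G S T, GSY_.symm G S' T]

end Pool.Agent.SFI
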