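import Pool.Agent.SFI.Targets

/-!
# SFI: HST, hosts give a system
-/

set_option autoImplicit false

open Finset

namespace Pool.Agent.SFI

open Pool.Agent.SFB (Con dg nc)

namespace HST_

variable {V : Type} [Fintype V] [DecidableEq V]

omit [DecidableEq V] in
/-- One more centre. -/
lemma step {G : SimpleGraph V} {a : ℕ → ℕ} {k i : ℕ} {Z : Finset V} {c : ℕ → V}
    {D : ℕ → Finset V} (h : Psy G a k i Z c D) (hi : 1 ≤ i) (y : V) (E : Finset V)
    (hy : ∀ t < i, c t ≠ y) (hE : E ⊆ dg G y) (hZ : Disjoint E Z) (hc : E.card = a i + k)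
    (hd : ∀ s, 1 ≤ s → s < i → Disjoint (D s) E) :
    Psy G a k (i + 1) Z (Function.update c i y) (Function.update D i E) := by
  have hc' : ∀ t < i, Function.update c i y t = c t := fun t ht =>
    Function.update_of_ne (by omega) _ _
  have hD' : ∀ t < i, Function.update D i E t = D t := fun t ht =>
    Function.update_of_ne (by omega) _ _
  have hci : Function.update c i y i = y := Function.update_self _ _ _
  have hDi : Function.update D i E i = E := Function.update_self _ _ _
  constructor
  · intro s hs t ht hst
    have hs' : s < i + 1 := hs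
    have ht' : t < i + 1 := ht
    rcases Nat.lt_succ_iff_lt_or_eq.1 hs' with h1 | h1
    · rcases Nat.lt_succ_iff_lt_or_eq.1 ht' with h2 | h2
      · rw [hc' s h1, hc' t h2] at hst
        exact h.inj h1 h2 hst
      · subst h2
        rw [hc' s h1, hci] at hst
        exact absurd hst (hy s h1)
    · subst h1
      rcases Nat.lt_succ_iff_lt_or_eq.1 ht' with h2 | h2
      · rw [hc' t h2, hci] at hst
        exact absurd hst.symm (hy t h2)
      · exact h2.symm
  · intro t ht ht'
    rcases Nat.lt_succ_iff_lt_or_eq.1 ht' with h2 | h2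
    · rw [hc' t h2, hD' t h2]
      exact h.sub t ht h2
    · subst h2
      rw [hci, hDi]
      exact hE
  · intro t ht ht'
    rcases Nat.lt_succ_iff_lt_or_eq.1 ht' with h2 | h2
    · rw [hD' t h2]
      exact h.avZ t ht h2
    · subst h2
      rw [hDi]
      exact hZ
  · intro t ht ht'
    rcases Nat.lt_succ_iff_lt_or_eq.1 ht' with h2 | h2
    · rw [hD' t h2]
      exact h.crd t ht h2
    · subst h2
      rw [hDi]
      exact hc
  · intro s t hs hst ht'
    rcases Nat.lt_succ_iff_lt_or_eq.1 ht' with h2 | h2
    · rw [hD' s (by omega), hD' t h2]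
      exact h.dsj s t hs hst h2
    · subst h2
      rw [hDi, hD' s hst]
      exact hd s hs hst

end HST_

theorem p_HST : T_HST := by
  intro V _ _ G a k p v x D hp hvx hH
  set h : ℕ := ∑ t ∈ Ico 2 (p + 2), a t + 2 * k ^ 2 with hh
  set Y : Finset V := univ.filter (fun y => y ≠ v ∧ y ≠ x ∧ y ∉ dg G v ∧
    h ≤ (dg G y ∩ ((univ \ dg G v) \ D)).card) with hY
  have hYk : k ≤ Y.card := hH.hst
  have hDx : D ⊆ dg G x := hH.sub.trans sdiff_subset
  have hDv : Disjoint D (dg G v) := by
    rw [Finset.disjoint_left]
    intro w hw hw'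
    exact (mem_sdiff.1 (hH.sub hw)).2 hw'
  have main : ∀ i, 2 ≤ i → i ≤ p + 2 → ∃ (c : ℕ → V) (D' : ℕ → Finset V),
      Psy G a k i (dg G v) c D' ∧ c 0 = v ∧ c 1 = x ∧ D' 1 = D ∧
        ∀ t, 2 ≤ t → t < i → c t ∈ Y := by
    intro i hi
    induction i, hi using Nat.le_induction with
    | base =>
      intro _
      refine ⟨fun t => if t = 0 then v else x, fun _ => D, ⟨?_, ?_, ?_, ?_, ?_⟩, by simp, by simp,
        rfl, fun t h1 h2 => by omega⟩
      · intro s hs t ht hst
        have hs' : s < 2 := hs
        have ht' : t < 2 := ht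
        replace hst : (if s = 0 then v else x) = if t = 0 then v else x := hst
        rcases Nat.eq_zero_or_pos s with h1 | h1 <;> rcases Nat.eq_zero_or_pos t with h2 | h2
        · omega
        · rw [if_pos h1, if_neg (by omega)] at hst
          exact absurd hst hvx
        · rw [if_neg (by omega), if_pos h2] at hst
          exact absurd hst.symm hvx
        · omega
      · intro t ht ht'
        show D ⊆ dg G (if t = 0 then v else x)
        rw [if_neg (by omega)]
        exact hDx
      · intro t _ _
        exact hDv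
      · intro t ht ht'
        have : t = 1 := by omega
        subst this
        exact hH.crd
      · intro s t h1 h2 h3
        omega
    | succ i hi ih =>
      intro hip
      obtain ⟨c, D', hP, h0, h1, hD1, hYc⟩ := ih (by omega)
      -- a host which is not used
      have hused : ((Ico 2 i).image c).card < Y.card := by
        refine lt_of_le_of_lt card_image_le ?_
        rw [Nat.card_Ico]
        omega
      obtain ⟨y, hyY, hyc⟩ := exists_mem_notMem_of_card_lt_card hused
      obtain ⟨-, hyv, hyx, hyd, hyh⟩ := mem_filter.1 hyY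
      set B : Finset V := (Ico 2 i).biUnion D' with hB
      set W : Finset V := (dg G y ∩ ((univ \ dg G v) \ D)) \ B with hW
      have hBc : B.card ≤ ∑ t ∈ Ico 2 i, a t + (i - 2) * k := by
        refine card_biUnion_le.trans ?_
        have e1 : ∑ t ∈ Ico 2 i, (D' t).card = ∑ t ∈ Ico 2 i, (a t + k) := by
          refine sum_congr rfl fun t ht => ?_
          have ht' := mem_Ico.1 ht
          exact hP.crd t (by omega) ht'.2
        rw [e1, sum_add_distrib, sum_const, Nat.card_Ico, smul_eq_mul]
      have hsum : ∑ t ∈ Ico 2 i, a t + a i ≤ ∑ t ∈ Ico 2 (p + 2), a t := by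
        have e2 : ∑ t ∈ Ico 2 i, a t + a i = ∑ t ∈ Ico 2 (i + 1), a t :=
          (sum_Ico_succ_top (by omega) _).symm
        rw [e2]
        exact sum_le_sum_of_subset (Ico_subset_Ico_right (by omega))
      have hik : (i - 2) * k + k ≤ 2 * k ^ 2 := by
        have h3 : i - 2 + 1 ≤ k := by omega
        have h4 := Nat.mul_le_mul_right k h3
        nlinarith
      have hWc : a i + k ≤ W.card := by
        have h5 : (dg G y ∩ ((univ \ dg G v) \ D)).card - B.card ≤ W.card := le_card_sdiff B _
        omega
      obtain ⟨E, hEW, hEc⟩ := exists_subset_card_eq hWc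
      have hEW' : ∀ w ∈ E, w ∈ dg G y ∧ w ∉ dg G v ∧ w ∉ D ∧ w ∉ B := by
        intro w hw
        have h6 := hEW hw
        rw [hW, mem_sdiff, mem_inter, mem_sdiff, mem_sdiff] at h6
        exact ⟨h6.1.1, h6.1.2.1.2, h6.1.2.2, h6.2⟩
      refine ⟨Function.update c i y, Function.update D' i E,
        HST_.step hP (by omega) y E ?_ (fun w hw => (hEW' w hw).1) ?_ hEc ?_, ?_, ?_, ?_, ?_⟩
      · intro t ht hty
        rcases Nat.lt_or_ge t 2 with h7 | h7
        · rcases Nat.eq_zero_or_pos t with h8 | h8
          · subst h8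
            exact hyv (by rw [← hty, h0])
          · have : t = 1 := by omega
            subst this
            exact hyx (by rw [← hty, h1])
        · exact hyc (mem_image.2 ⟨t, mem_Ico.2 ⟨h7, ht⟩, hty⟩)
      · rw [Finset.disjoint_left]
        intro w hw
        exact (hEW' w hw).2.1
      · intro s hs hsi
        rw [Finset.disjoint_left]
        intro w hw hw'
        rcases Nat.lt_or_ge s 2 with h7 | h7
        · have : s = 1 := by omega
          subst this
          rw [hD1] at hw
          exact (hEW' w hw').2.2.1 hw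
        · exact (hEW' w hw').2.2.2 (mem_biUnion.2 ⟨s, mem_Ico.2 ⟨h7, hsi⟩, hw⟩)
      · rw [Function.update_of_ne (by omega), h0]
      · rw [Function.update_of_ne (by omega), h1]
      · rw [Function.update_of_ne (by omega), hD1]
      · intro t h7 h8
        rcases Nat.lt_succ_iff_lt_or_eq.1 h8 with h9 | h9
        · rw [Function.update_of_ne (by omega)]
          exact hYc t h7 h9
        · subst h9
          rw [Function.update_self]
          exact hyY
  obtain ⟨c, D', hP, h0, h1, -, hYc⟩ := main (p + 2) (by omega) le_rfl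
  exact ⟨c, D', hP, h0, h1, fun t h2 h3 => (mem_filter.1 (hYc t h2 h3)).2.2.2.1⟩

end Pool.Agent.SFI
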