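import Pool.Agent.SFI.Targets

/-!
# SFI: the arithmetic of the lower bound colouring
-/

set_option autoImplicit false

open Finset

namespace Pool.Agent.SFI

open Pool.Agent.SFB (Con dg nc)
open Pool.Agent.SFG (pf)

namespace LPF_

lemma one_le {a : ℕ → ℕ} {S : Finset ℕ} (h : 0 ∈ S) : a 0 ≤ ∑ t ∈ S, a t :=
  single_le_sum (f := a) (fun _ _ => Nat.zero_le _) h

lemma two_le {a : ℕ → ℕ} {S : Finset ℕ} (h : 0 ∈ S) (h2 : 2 ≤ S.card) :
    ∃ t ∈ S, a 0 + a t ≤ ∑ t ∈ S, a t := by
  obtain ⟨t, ht, hne⟩ := exists_mem_ne (s := S) (by omega) 0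
  refine ⟨t, ht, ?_⟩
  have h3 : ({0, t} : Finset ℕ) ⊆ S := by
    intro i hi
    rw [mem_insert, mem_singleton] at hi
    rcases hi with rfl | rfl
    · exact h
    · exact ht
  have h4 := sum_le_sum_of_subset (f := a) h3
  rwa [sum_pair (Ne.symm hne)] at h4

lemma par {k a x c : ℕ} (hk : 2 ≤ k)
    (h : (c = k - 2 ∧ (k % 2 = 0 ∨ a % 2 = 1)) ∨ (3 ≤ k ∧ c = k - 3 ∧ k % 2 = 1))
    (hx : x = a + c) : x * c % 2 = 0 := by
  have h1 : c % 2 = 0 ∨ x % 2 = 0 := by
    rcases h with ⟨h1, h2 | h2⟩ | ⟨h1, h2, h3⟩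
    · left
      omega
    · omega
    · left
      omega
  rcases h1 with h1 | h1
  · rw [Nat.mul_mod, h1, mul_zero, Nat.zero_mod]
  · rw [Nat.mul_mod, h1, zero_mul, Nat.zero_mod]

end LPF_

open LPF_ in
theorem p_LPF : T_LPF := by
  intro k a x c hk ha hc hx hpf
  have hpar := par hk hc hx
  have hck : c + 2 ≤ k := by
    rcases hc with ⟨h1, _⟩ | ⟨h1, h2, _⟩
    · omega
    · omega
  have hkk : 2 * k ≤ k ^ 2 := by nlinarith
  obtain ⟨A, hA, hpf⟩ := hpf
  have hB : range k \ A ⊆ range k := sdiff_subset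
  have hcard : (range k \ A).card + A.card = k := by
    have := card_sdiff_add_card_eq_card hA
    rwa [card_range] at this
  have h0 : 0 ∈ A ∨ 0 ∈ range k \ A := by
    by_cases h : 0 ∈ A
    · exact Or.inl h
    · right
      rw [mem_sdiff, mem_range]
      exact ⟨by omega, h⟩
  rcases hpf with ⟨h1, h2, h3⟩ | ⟨z, h1, _, h3, h4⟩
  · rcases h0 with h | h
    · have h5 : 0 < A.card := card_pos.2 ⟨0, h⟩
      rcases Nat.lt_or_ge A.card 2 with h6 | h6
      · have h7 := h3 (by omega)
        have h8 := one_le (a := a) h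
        omega
      · obtain ⟨t, ht, h7⟩ := two_le (a := a) h h6
        have h8 := ha t (mem_range.1 (hA ht))
        omega
    · have h5 : 0 < (range k \ A).card := card_pos.2 ⟨0, h⟩
      have h8 := one_le (a := a) h
      omega
  · rw [hpar, add_zero] at h1
    rcases h0 with h | h
    · have h5 : 0 < A.card := card_pos.2 ⟨0, h⟩
      rcases Nat.lt_or_ge A.card 2 with h6 | h6
      · have h8 := one_le (a := a) h
        omega
      · obtain ⟨t, ht, h7⟩ := two_le (a := a) h h6
        have h8 := ha t (mem_range.1 (hA ht))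
        omega
    · have h5 : 0 < (range k \ A).card := card_pos.2 ⟨0, h⟩
      rcases Nat.lt_or_ge (range k \ A).card 2 with h6 | h6
      · have h7 : (range k \ A).card = 1 := by omega
        rw [h7, one_mul] at h1
        have h8 := one_le (a := a) h
        omega
      · obtain ⟨t, ht, h7⟩ := two_le (a := a) h h6
        have h8 := ha t (mem_range.1 (hB ht))
        have h9 : (range k \ A).card * c ≤ k * (k - 2) :=
          Nat.mul_le_mul (by omega) (by omega)
        have h10 : k * (k - 2) + 2 * k = k ^ 2 := by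
          obtain ⟨j, rfl⟩ : ∃ j, k = j + 2 := ⟨k - 2, by omega⟩
          rw [Nat.add_sub_cancel]
          ring
        omega

end Pool.Agent.SFI
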