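import Pool.Agent.SFI.Targets

/-!
# SFI: the lower bound colouring (target LWD)
-/

set_option autoImplicit false

open Finset

namespace Pool.Agent.SFI

open Pool.Agent.SFB (Con dg nc)

theorem p_LWD (hLOW : Pool.Agent.SFG.T_LOW) (hCNV : Pool.Agent.SFG.T_CNV) (hLPF : T_LPF) :
    T_LWD := by
  intro k a N hk ha hN
  have ha0 : k ^ 2 ≤ a 0 := ha 0 (by omega)
  have hkk : k ≤ k ^ 2 := by nlinarith
  have key : ∃ c : ℕ, ((c = k - 2 ∧ (k % 2 = 0 ∨ a 0 % 2 = 1)) ∨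
      (3 ≤ k ∧ c = k - 3 ∧ k % 2 = 1)) ∧ (a 0 + c) + a 0 = N := by
    by_cases h1 : k % 2 = 1 ∧ a 0 % 2 = 0
    · rw [if_pos h1] at hN
      refine ⟨k - 3, Or.inr ⟨by omega, rfl, h1.1⟩, by omega⟩
    · rw [if_neg h1] at hN
      refine ⟨k - 2, Or.inl ⟨rfl, by omega⟩, by omega⟩
  obtain ⟨c, hc, hcN⟩ := key
  have hcx : c < a 0 + c ∨ c = 0 := Or.inl (by omega)
  have hnp := hLPF k a (a 0 + c) c hk ha hc rfl
  have hnP : ¬ Pool.Agent.SFG.PF (fun i : Fin k => a i) (a 0 + c) (a 0) c :=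
    fun h => hnp ((hCNV k a (a 0 + c) (a 0) c).2 h)
  obtain ⟨G, hG1, hG2⟩ := hLOW k (fun i => a i) (a 0 + c) (a 0) c hcx hnP
  subst hcN
  exact ⟨G, hG1, hG2⟩

end Pool.Agent.SFI
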