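import Pool.Agent.SFI.Targets

set_option autoImplicit false

/-!
# SFI-MIN: a subset with small sum
-/

open Finset

namespace Pool.Agent.SFI

open Pool.Agent.SFB (Con dg nc)

theorem p_MIN : T_MIN := by
  intro V _ _ ψ S m hm
  have hne : (powersetCard m S).Nonempty := powersetCard_nonempty.2 hm
  obtain ⟨S0, hS0, hmin⟩ := exists_min_image (powersetCard m S) (fun A => ∑ z ∈ A, ψ z) hne
  rw [mem_powersetCard] at hS0
  refine ⟨S0, hS0.1, hS0.2, fun h0 => ?_⟩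
  have hsum : ∑ z ∈ S \ S0, ψ z + ∑ z ∈ S0, ψ z = ∑ z ∈ S, ψ z := sum_sdiff hS0.1
  by_cases h : ∀ u ∈ S \ S0, 0 ≤ ψ u
  · have h1 : 0 ≤ ∑ z ∈ S \ S0, ψ z := sum_nonneg h
    linarith
  push Not at h
  obtain ⟨u, hu, hu0⟩ := h
  rw [mem_sdiff] at hu
  have h2 : ∀ z ∈ S0, ψ z ≤ 0 := by
    intro z hz
    have hnot : u ∉ S0.erase z := fun h => hu.2 (mem_of_mem_erase h)
    have h3 : insert u (S0.erase z) ∈ powersetCard m S := by
      rw [mem_powersetCard]
      refine ⟨insert_subset hu.1 ((erase_subset _ _).trans hS0.1), ?_⟩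
      rw [card_insert_of_notMem hnot, card_erase_of_mem hz, hS0.2]
      have : 0 < S0.card := card_pos.2 ⟨z, hz⟩
      omega
    have h4 := hmin _ h3
    rw [sum_insert hnot] at h4
    have h5 : ψ z + ∑ y ∈ S0.erase z, ψ y = ∑ y ∈ S0, ψ y := add_sum_erase S0 ψ hz
    linarith
  have h3 : ∑ z ∈ S0, ψ z ≤ 0 := sum_nonpos h2
  linarith

end Pool.Agent.SFI
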