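import Pool.Agent.SFI.Targets

/-!
# SFI: handshake
-/

set_option autoImplicit false

open Finset

namespace Pool.Agent.SFI

open Pool.Agent.SFB (Con dg nc)

/-- In a graph with an odd number of vertices not all degrees are odd. -/
theorem p_ODD : T_ODD := by
  intro V _ _ G hV h
  classical
  have h1 : ∀ v, (dg G v).card = G.degree v := by
    intro v
    rw [← SimpleGraph.card_neighborFinset_eq_degree]
    congr 1
    ext w
    simp [dg]
  have h2 := G.even_card_odd_degree_vertices
  have h3 : (univ.filter fun v => Odd (G.degree v)) = univ := by
    ext v
    simp only [mem_filter, mem_univ, true_and, iff_true]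
    rw [← h1 v]
    exact Nat.odd_iff.2 (h v)
  rw [h3, card_univ] at h2
  have h4 := Nat.even_iff.1 h2
  omega

end Pool.Agent.SFI
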