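import Pool.Agent.SFI.Targets

set_option autoImplicit false

open Finset

namespace Pool.Agent.SFI

open Pool.Agent.SFB (Con dg nc)

/-- a vertex of large degree -/
theorem p_ONE (hEMC : T_EMC) (hGRE : T_GRE) : T_ONE := by
  intro V _ _ G a k e v hP hdeg hv
  have hk := hP.k2
  obtain ⟨Z, hZ, hZc⟩ := exists_subset_card_eq (show a 0 + k - 1 ≤ (dg G v).card by omega)
  have hlo := hP.lo
  have hPsy : Psy G a k 1 Z (fun _ => v) (fun _ => ∅) := by
    refine ⟨?_, ?_, ?_, ?_, ?_⟩
    · intro s hs t ht _
      simp only [Set.mem_Iio] at hs ht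
      omega
    · intro t h1 h2
      omega
    · intro t h1 h2
      omega
    · intro t h1 h2
      omega
    · intro s t h1 h2 h3
      omega
  obtain ⟨c', D', hPsy', hc'⟩ := hGRE V G a k e 1 Z (fun _ => v) (fun _ => ∅) hP hdeg
    (by omega) le_rfl (by omega) hPsy
  have hc0 : c' 0 = v := hc' 0 (by omega)
  refine hEMC V G a k Z c' D' (by omega) hPsy' (by rw [hc0]; exact hZ) ?_
  have h1 : Z ∩ (range k).image c' ⊆ ((range k).erase 0).image c' := by
    intro w hw
    rw [mem_inter, mem_image] at hw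
    obtain ⟨hwZ, t, ht, rfl⟩ := hw
    rw [mem_image]
    refine ⟨t, ?_, rfl⟩
    rw [mem_erase]
    refine ⟨?_, ht⟩
    rintro rfl
    rw [hc0] at hwZ
    exact Pool.Agent.SFB.not_mem_dg (hZ hwZ)
  have h2 : (Z ∩ (range k).image c').card ≤ k - 1 := by
    refine (card_le_card h1).trans (card_image_le.trans ?_)
    rw [card_erase_of_mem (mem_range.mpr (by omega)), card_range]
  have h3 := card_sdiff_add_card_inter Z ((range k).image c')
  omega

end Pool.Agent.SFI
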