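import Pool.Agent.SFI.Targets

/-!
# SFI, SUM: from pointwise inequalities to sums
-/

set_option autoImplicit false

open Finset

namespace Pool.Agent.SFI

open Pool.Agent.SFB (Con dg nc)

namespace SUM_

theorem aux {V : Type} (T : Finset V) (P : V → Prop) [DecidablePred P] (c f : V → ℤ) (k N : ℤ)
    (hN : 0 ≤ N) (hc : ((T.filter P).card : ℤ) ≤ k) (h1 : ∀ y ∈ T, ¬ P y → c y ≤ f y)
    (h2 : ∀ y ∈ T, P y → c y ≤ f y + 2 * N) : ∑ y ∈ T, c y ≤ ∑ y ∈ T, f y + 2 * k * N := by
  have h3 : ∑ y ∈ T, c y ≤ ∑ y ∈ T, (f y + if P y then 2 * N else 0) := by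
    refine sum_le_sum fun y hy => ?_
    by_cases hp : P y
    · rw [if_pos hp]
      exact h2 y hy hp
    · rw [if_neg hp, add_zero]
      exact h1 y hy hp
  rw [sum_add_distrib, ← sum_filter, sum_const, nsmul_eq_mul] at h3
  nlinarith

end SUM_

theorem p_SUM : T_SUM := by
  intro V _ _ G T S k e he
  have hSN : (S.card : ℤ) ≤ Fintype.card V := by exact_mod_cast card_le_univ S
  have heN : 4 * (e : ℤ) ≤ Fintype.card V := by exact_mod_cast he
  have hle : ∀ y, ((dg G y ∩ S).card : ℤ) ≤ S.card := fun y => by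
    exact_mod_cast card_le_card inter_subset_right
  refine ⟨fun h => ?_, fun h => ?_⟩
  · have h1 := SUM_.aux T _ (fun _ => 4 * (e : ℤ))
      (fun y => 2 * ((dg G y ∩ S).card : ℤ) - (S.card : ℤ)) k (Fintype.card V)
      (Int.natCast_nonneg _) (Int.ofNat_le.2 h) (fun y _ hy => not_not.1 hy)
      (fun y _ _ => by
        have := Int.natCast_nonneg (dg G y ∩ S).card
        linarith)
    rw [sum_const, nsmul_eq_mul] at h1
    unfold gE
    linarith
  · have h1 := SUM_.aux T _ (fun y => 2 * ((dg G y ∩ S).card : ℤ) - (S.card : ℤ) + 4 * (e : ℤ))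
      (fun _ => 0) k (Fintype.card V)
      (Int.natCast_nonneg _) (Int.ofNat_le.2 h) (fun y _ hy => by
        have := not_not.1 hy
        linarith)
      (fun y _ _ => by
        have := hle y
        linarith)
    rw [sum_add_distrib, sum_const, nsmul_eq_mul, sum_const_zero] at h1
    unfold gE
    linarith

end Pool.Agent.SFI
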