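import Pool.Agent.SFI.Targets
import Pool.Agent.SFH.P_STC

set_option autoImplicit false

/-!
# SFI: TOP, one colour has small degrees
-/

open Finset

namespace Pool.Agent.SFI

open Pool.Agent.SFB (Con dg nc)
open Pool.Agent.SFG (Cov)
open Pool.Agent.SFH (HS)
open Pool.Agent.SFH.STC_ (kap kap_le kap_ex kap_max kap_lt)

namespace TOP_

/-- the minimax distribution on one side gives small degrees -/
theorem side (hNKB : Pool.Agent.SFH.T_NKB) {V : Type} [Fintype V] [DecidableEq V] [Nonempty V]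
    (G : SimpleGraph V) (a : ℕ → ℕ) (k e : ℕ) (hP : DPar a k e (Fintype.card V))
    (Y : Finset V) (P : V → ℝ) (c : ℕ → V) (hY : (Yᶜ).card ≤ 2 * k) (hcov : Cov G Y Y 1 P)
    (hK : kap G a k k < k) (hc : HS G a k (kap G a k k) c)
    (hcY : ∀ t < kap G a k k, c t ∉ Y) : ∀ v, (dg G v).card < a 0 + k := by
  have hmax := kap_max G a k k hK
  have hN := hNKB V G Y Y 1 P a k k (kap G a k k) (2 * k) c hcov hY hc le_rfl hmax hcY
  obtain ⟨K, hKe⟩ : ∃ K, kap G a k k = K := ⟨_, rfl⟩
  rw [hKe] at hK hmax hN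
  have h2 := hP.k2
  have h3 := hP.ek
  have hK0 : K = 0 := by
    by_contra hne
    have h1 := hP.dom K (by omega) hK
    omega
  rw [hK0] at hmax
  by_contra hcon
  push Not at hcon
  obtain ⟨v, hv⟩ := hcon
  obtain ⟨v0, -, hv0⟩ := exists_max_image (univ : Finset V) (fun u => (dg G u).card)
    ⟨v, mem_univ v⟩
  refine hmax ⟨fun _ => v0, ?_, ?_, ?_⟩
  · intro x hx y hy _
    simp only [zero_add, Set.mem_Iio] at hx hy
    omega
  · intro J hJ hne
    have hJ1 : J = {0} := by
      refine (Finset.Nonempty.subset_singleton_iff hne).1 ?_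
      intro x hx
      have := mem_range.1 (hJ hx)
      rw [mem_singleton]
      omega
    subst hJ1
    have h4 : nc G (fun _ => v0) {0} = dg G v0 := by
      ext w
      rw [Pool.Agent.SFB.mem_nc]
      simp
    rw [h4, sum_singleton]
    exact hv.trans (hv0 v (mem_univ v))
  · intro _ u
    exact hv0 u (mem_univ u)

end TOP_

open TOP_ in
theorem p_TOP (hMMX : Pool.Agent.SFG.T_MMX) (hNKB : Pool.Agent.SFH.T_NKB)
    (hEMB : Pool.Agent.SFB.T_EMB) : T_TOP := by
  intro V _ _ G a k e hP hG hGc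
  have h2 := hP.k2
  have h3 := hP.ek
  have h4 := hP.eN
  have : Nonempty V := Fintype.card_pos_iff.1 (by omega)
  have hK1 := kap_lt hEMB G a k k le_rfl hG
  have hK2 := kap_lt hEMB Gᶜ a k k le_rfl hGc
  obtain ⟨c1, hc1⟩ := kap_ex G a k k
  obtain ⟨c2, hc2⟩ := kap_ex Gᶜ a k k
  obtain ⟨R, hR⟩ : ∃ R : Finset V, R = (range (kap G a k k)).image c1 ∪
    (range (kap Gᶜ a k k)).image c2 := ⟨_, rfl⟩
  have hRc : R.card ≤ 2 * k := by
    rw [hR]
    have e1 := card_union_le ((range (kap G a k k)).image c1) ((range (kap Gᶜ a k k)).image c2)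
    have e2 : ((range (kap G a k k)).image c1).card ≤ kap G a k k :=
      card_image_le.trans (by rw [card_range])
    have e3 : ((range (kap Gᶜ a k k)).image c2).card ≤ kap Gᶜ a k k :=
      card_image_le.trans (by rw [card_range])
    omega
  have hYR := card_compl_add_card R
  obtain ⟨X, hX, hXc, hcov⟩ := hMMX V G Rᶜ 1 le_rfl (by omega)
  have hXY : X = Rᶜ := by
    refine subset_antisymm hX ?_
    have h5 : (Rᶜ \ X) = ∅ := card_eq_zero.1 (by omega)
    exact sdiff_eq_empty_iff_subset.1 h5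
  subst hXY
  have hRR : ((Rᶜ)ᶜ : Finset V).card ≤ 2 * k := by rwa [compl_compl]
  have m1 : ∀ t < kap G a k k, c1 t ∉ Rᶜ := by
    intro t ht
    rw [mem_compl, not_not, hR]
    exact mem_union_left _ (mem_image_of_mem _ (mem_range.2 ht))
  have m2 : ∀ t < kap Gᶜ a k k, c2 t ∉ Rᶜ := by
    intro t ht
    rw [mem_compl, not_not, hR]
    exact mem_union_right _ (mem_image_of_mem _ (mem_range.2 ht))
  rcases hcov with ⟨P, hcov⟩ | ⟨P, hcov⟩
  · exact Or.inl (side hNKB G a k e hP Rᶜ P c1 hRR hcov hK1 hc1 m1)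
  · exact Or.inr (side hNKB Gᶜ a k e hP Rᶜ P c2 hRR hcov hK2 hc2 m2)

end Pool.Agent.SFI
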