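import Pool.Agent.SFI.Targets

/-!
# SFI, UPC: the upper bound, combination
-/

set_option autoImplicit false

open Finset

namespace Pool.Agent.SFI

open Pool.Agent.SFB (Con dg nc)

namespace UPC_

variable {V : Type} [Fintype V] [DecidableEq V]

/-- A system of length 2. -/
lemma psy2 (G : SimpleGraph V) (a : ℕ → ℕ) (k : ℕ) {v x : V} (hvx : v ≠ x)
    (h : a 1 + k ≤ (dg G x \ dg G v).card) :
    ∃ (c : ℕ → V) (D : ℕ → Finset V), Psy G a k 2 (dg G v) c D ∧ c 0 = v ∧ c 1 = x := by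
  obtain ⟨D1, hD1, hc⟩ := exists_subset_card_eq h
  refine ⟨fun t => if t = 0 then v else x, fun _ => D1, ⟨?_, ?_, ?_, ?_, ?_⟩, if_pos rfl,
    if_neg one_ne_zero⟩
  · intro s hs t ht hst
    have hs' : s < 2 := hs
    have ht' : t < 2 := ht
    by_contra hne
    have h1 : (s = 0 ∧ t = 1) ∨ (s = 1 ∧ t = 0) := by omega
    rcases h1 with ⟨rfl, rfl⟩ | ⟨rfl, rfl⟩
    · exact hvx (by simpa using hst)
    · exact hvx (by simpa using hst.symm)
  · intro t h1 _
    have h0 : t ≠ 0 := by omega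
    simp only [if_neg h0]
    exact hD1.trans sdiff_subset
  · intro t _ _
    exact disjoint_of_subset_left hD1 sdiff_disjoint
  · intro t h1 h2
    have h3 : t = 1 := by omega
    rw [h3]
    exact hc
  · intro s t h1 h2 h3
    omega

/-- The two ways to use the system of hosts. -/
lemma use (hHST : T_HST) (hCST : T_CST) (G : SimpleGraph V) (a : ℕ → ℕ) {k e p : ℕ} {v x : V}
    {D : Finset V} (hD : DPar a k e (Fintype.card V)) (hN : Near G k) (hN' : Near Gᶜ k)
    (hvx : v ≠ x) (hp : p + 2 ≤ k) (hlow : 2 * a 0 + 2 * k ≤ Fintype.card V + p + 3)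
    (hc : a 1 + k ≤ (dg Gᶜ x \ dg Gᶜ v).card)
    (h : Hst G a k (∑ t ∈ Ico 2 (p + 2), a t + 2 * k ^ 2) v x D) :
    Con G k a ∨ Con Gᶜ k a := by
  obtain ⟨c, D', h1, h2, h3, h4⟩ := hHST V G a k p v x D hp hvx h
  exact hCST V G a k e p v x c D' hD hN hN' hvx hp hlow h1 h2 h3 h4 hc

end UPC_

open UPC_

theorem p_UPC (hFAR : T_FAR) (hFAC : T_FAC) (hEXC : T_EXC) (hHST : T_HST) (hCST : T_CST) :
    T_UPC := by
  intro V _ _ G a k e p hD hN hN' hp hlow hcase
  have h1 := hD.eN
  have h2 := hD.ek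
  have h3 := hD.k2
  have h4 := hD.one
  obtain ⟨v⟩ : Nonempty V := Fintype.card_pos_iff.1 (by omega)
  have h5 := hFAR V G k e v hN (by omega) (by omega) (by omega)
  obtain ⟨x, hx⟩ : (univ.filter
      (fun x => Fintype.card V ≤ 4 * (dg G x \ dg G v).card + 8 * e)).Nonempty :=
    card_pos.1 (by omega)
  have hm : Fintype.card V ≤ 4 * (dg G x \ dg G v).card + 8 * e := (mem_filter.1 hx).2
  have hvx : v ≠ x := by
    rintro rfl
    rw [sdiff_self, bot_eq_empty, card_empty] at hm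
    omega
  obtain ⟨f1, f2⟩ := hFAC V G k v x hN
  obtain ⟨g1, g2⟩ := hFAC V G k x v hN
  have f3 : ((dg G v \ dg G x) \ {x}).card ≤ (dg G v \ dg G x).card :=
    card_le_card sdiff_subset
  have c1 : a 1 + k ≤ (dg Gᶜ x \ dg Gᶜ v).card := by omega
  have c2 : a 1 + k ≤ (dg G x \ dg G v).card := by omega
  have c3 : a 1 + k ≤ (dg Gᶜ v \ dg Gᶜ x).card := by omega
  have c4 : a 1 + k ≤ (dg G v \ dg G x).card := by omega
  have hNc : Near Gᶜᶜ k := by
    rw [compl_compl]
    exact hN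
  rcases hcase with rfl | hcase
  · obtain ⟨c, D, p1, p2, p3⟩ := psy2 G a k hvx c2
    exact hCST V G a k e 0 v x c D hD hN hN' hvx hp hlow p1 p2 p3
      (fun t ht1 ht2 => by omega) c1
  · obtain ⟨D, h | h | h | h⟩ := hEXC V G a k e p v x hD hN hN' hvx hp hcase hm
    · exact use hHST hCST G a hD hN hN' hvx hp hlow c1 h
    · have := use hHST hCST Gᶜ a hD hN' hNc hvx hp hlow (by rw [compl_compl]; exact c2) h
      rw [compl_compl] at this
      exact this.symm
    · exact use hHST hCST G a hD hN hN' hvx.symm hp hlow c3 h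
    · have := use hHST hCST Gᶜ a hD hN' hNc hvx.symm hp hlow (by rw [compl_compl]; exact c4) h
      rw [compl_compl] at this
      exact this.symm

end Pool.Agent.SFI
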