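import Pool.Agent.SFI.Targets

set_option autoImplicit false

/-!
# UPF: the exact upper bound with parity
-/

open Finset

namespace Pool.Agent.SFI

open Pool.Agent.SFB (Con dg nc)

namespace UPF_

theorem key {V : Type} [Fintype V] (G : SimpleGraph V) (v : V) :
    (dg G v).card + (dg Gᶜ v).card + 1 = Fintype.card V := by
  classical
  have h3 : dg Gᶜ v = (univ \ {v}) \ dg G v := by
    ext w
    rw [Pool.Agent.SFB.mem_dg_compl]
    simp
  have h4 : dg G v ⊆ univ \ {v} := by
    intro w hw
    simp only [mem_sdiff, mem_univ, mem_singleton, true_and]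
    rintro rfl
    exact Pool.Agent.SFB.not_mem_dg hw
  have h5 := card_sdiff_add_card_eq_card h4
  have h6 : (univ \ {v} : Finset V).card + 1 = Fintype.card V := by
    have h7 := card_sdiff_add_card_eq_card (subset_univ ({v} : Finset V))
    rw [card_singleton, card_univ] at h7
    exact h7
  rw [h3]
  omega

end UPF_

/-- **UPF** -/
theorem p_UPF (hNRG : T_NRG) (hFA2 : T_FA2) (hODD : T_ODD) : T_UPF := by
  intro V _ _ G a k e hD hsum hcase
  by_contra hcon
  rw [not_or] at hcon
  obtain ⟨hG, hGc⟩ := hcon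
  obtain ⟨h1, h2⟩ := hNRG V G a k e hD hG hGc
  obtain ⟨hnear, -⟩ := near_of G a k hD.lo h1 h2
  have h3 : ∀ v, (dg G v).card < a 0 ∨ (dg Gᶜ v).card < a 0 := fun v =>
    hFA2 V G a k e v hD hnear hsum hG hGc
  have hN : 0 < Fintype.card V := by
    have h4 := hD.eN
    have h5 := hD.ek
    have h6 := hD.k2
    omega
  rcases hcase with hc | ⟨hc, hk, ha⟩
  · obtain ⟨v⟩ := Fintype.card_pos_iff.1 hN
    have h4 := UPF_.key G v
    have h5 := h1 v
    have h6 := h2 v
    rcases h3 v with h7 | h7 <;> omega
  · refine hODD V G (by omega) fun v => ?_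
    have h4 := UPF_.key G v
    have h5 := h1 v
    have h6 := h2 v
    rcases h3 v with h7 | h7 <;> omega

end Pool.Agent.SFI
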