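import Pool.Agent.SFI.Final
import Pool.Agent.SFI.P_CNT
import Pool.Agent.SFI.P_CST
import Pool.Agent.SFI.P_EMC
import Pool.Agent.SFI.P_EXC
import Pool.Agent.SFI.P_FA2
import Pool.Agent.SFI.P_FAC
import Pool.Agent.SFI.P_FAR
import Pool.Agent.SFI.P_FE2
import Pool.Agent.SFI.P_GRE
import Pool.Agent.SFI.P_GSY
import Pool.Agent.SFI.P_HST
import Pool.Agent.SFI.P_LPF
import Pool.Agent.SFI.P_LWD
import Pool.Agent.SFI.P_MIN
import Pool.Agent.SFI.P_NRG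
import Pool.Agent.SFI.P_ODD
import Pool.Agent.SFI.P_ONE
import Pool.Agent.SFI.P_SUM
import Pool.Agent.SFI.P_TOP
import Pool.Agent.SFI.P_UPC
import Pool.Agent.SFI.P_UPF
import Pool.Agent.SFG.Assemble
import Pool.Agent.SFG.P_MMX
import Pool.Agent.SFG.P_AVE
import Pool.Agent.SFG.P_CNV
import Pool.Agent.SFH.P_NKB
import Pool.Agent.SFB.P_EMB

/-! Assembly of the dominated case: every target of the project proved from its block. -/

namespace Pool.Agent.SFI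

theorem a_EMC : T_EMC := p_EMC Pool.Agent.SFB.p_EMB

theorem a_ONE : T_ONE := p_ONE a_EMC p_GRE

theorem a_TOP : T_TOP :=
  p_TOP Pool.Agent.SFG.p_MMX (Pool.Agent.SFH.p_NKB Pool.Agent.SFG.p_AVE) Pool.Agent.SFB.p_EMB

theorem a_NRG : T_NRG := p_NRG a_TOP a_ONE

theorem a_CNT : T_CNT := p_CNT p_GSY

theorem a_EXC : T_EXC := p_EXC p_FAC p_MIN p_SUM a_CNT

theorem a_CST : T_CST := p_CST a_EMC p_GRE

theorem a_UPC : T_UPC := p_UPC p_FAR p_FAC a_EXC p_HST a_CST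

theorem a_FE2 : T_FE2 := p_FE2 Pool.Agent.SFB.p_EMB

theorem a_FA2 : T_FA2 := p_FA2 p_FAR p_FAC a_FE2

theorem a_UPF : T_UPF := p_UPF a_NRG a_FA2 p_ODD

theorem a_LWD : T_LWD := p_LWD Pool.Agent.SFG.a_LOW Pool.Agent.SFG.p_CNV p_LPF

end Pool.Agent.SFI
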