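import Pool.Agent.SFH.Targets

/-!
# SFI: diagonal Ramsey numbers of star forests dominated by their largest star (MP_705b7e_co):
definitions

`k` stars with the sizes `a 0 ≥ .. ≥ a (k - 1)`. The notions `Con`, `dg`, `nc` are those of
`Pool.Agent.SFB`, the notion `pf` that of `Pool.Agent.SFG`, the notion `HS` that of
`Pool.Agent.SFH`.
-/

set_option autoImplicit false

open Finset

namespace Pool.Agent.SFI

open Pool.Agent.StarF (starForest ramsey)
open Pool.Agent.SFB (Con dg nc)
open Pool.Agent.SFG (Cov pf PF)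
open Pool.Agent.SFH (HS)

/-- `k` stars of sizes `a 0, .., a (k - 1)`, dominated by the first one, in a graph with `N`
vertices; `e` is the slack. -/
structure DPar (a : ℕ → ℕ) (k e N : ℕ) : Prop where
  k2 : 2 ≤ k
  anti : ∀ s t, s ≤ t → t < k → a t ≤ a s
  lo : 2 * a 0 ≤ N
  up : N ≤ 2 * a 0 + 2 * k
  dom : ∀ i, 1 ≤ i → i < k → ∑ t ∈ range i, a t + 2 * a i + 16 * e ≤ N
  big : 1000 * k ^ 2 ≤ e

section

variable {V : Type} [Fintype V]

/-- All degrees are at most `k` away from `|V| / 2`. -/
def Near (G : SimpleGraph V) (k : ℕ) : Prop :=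
  ∀ w, Fintype.card V ≤ 2 * (dg G w).card + 2 * k ∧ 2 * (dg G w).card ≤ Fintype.card V + 2 * k

end

section

variable {V : Type} [Fintype V] [DecidableEq V]

/-- Centres `c 0, .., c (i - 1)` and disjoint sets `D t ⊆ dg (c t)`, `1 ≤ t < i`, with `a t + k`
elements which avoid the set `Z`. -/
structure Psy (G : SimpleGraph V) (a : ℕ → ℕ) (k i : ℕ) (Z : Finset V) (c : ℕ → V)
    (D : ℕ → Finset V) : Prop where
  inj : Set.InjOn c (Set.Iio i)
  sub : ∀ t, 1 ≤ t → t < i → D t ⊆ dg G (c t)
  avZ : ∀ t, 1 ≤ t → t < i → Disjoint (D t) Z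
  crd : ∀ t, 1 ≤ t → t < i → (D t).card = a t + k
  dsj : ∀ s t, 1 ≤ s → s < t → t < i → Disjoint (D s) (D t)

/-- `gE G T S` is the number of the adjacent pairs minus the number of the other pairs in
`T × S`. -/
noncomputable def gE (G : SimpleGraph V) (T S : Finset V) : ℤ :=
  ∑ t ∈ T, (2 * ((dg G t ∩ S).card : ℤ) - (S.card : ℤ))

/-- The centre `v` of the largest star, the centre `x` of the second star with the set `D` of
leaves, and at least `k` vertices `y` (hosts) which are not adjacent to `v` and have at least `h`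
neighbours outside of `dg G v` and `D`. -/
structure Hst (G : SimpleGraph V) (a : ℕ → ℕ) (k h : ℕ) (v x : V) (D : Finset V) : Prop where
  sub : D ⊆ dg G x \ dg G v
  crd : D.card = a 1 + k
  hst : k ≤ (univ.filter (fun y => y ≠ v ∧ y ≠ x ∧ y ∉ dg G v ∧
    h ≤ (dg G y ∩ ((univ \ dg G v) \ D)).card)).card

end

namespace DPar

variable {a : ℕ → ℕ} {k e N : ℕ}

lemma k1 (h : DPar a k e N) : 2 * k ≤ k ^ 2 := by
  have h1 := h.k2
  nlinarith

lemma ek (h : DPar a k e N) : 2000 * k ≤ e := by
  have h1 := h.k1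
  have h2 := h.big
  omega

lemma le0 (h : DPar a k e N) {t : ℕ} (ht : t < k) : a t ≤ a 0 := h.anti 0 t (Nat.zero_le t) ht

/-- The sum without the first star. -/
lemma split (_h : DPar a k e N) {i : ℕ} (hi : 1 ≤ i) :
    ∑ t ∈ range i, a t = a 0 + ∑ t ∈ Ico 1 i, a t := by
  rw [range_eq_Ico, sum_eq_sum_Ico_succ_bot (by omega)]

/-- The stars without the first one are small compared with `N / 2`. -/
lemma half (h : DPar a k e N) {i : ℕ} (hi : 1 ≤ i) (hik : i < k) :
    2 * ∑ t ∈ Ico 1 i, a t + 4 * a i + 32 * e ≤ N + 2 * k := by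
  have h1 := h.dom i hi hik
  have h2 := h.split hi
  have h3 := h.up
  omega

/-- The second star has less than a quarter of the vertices. -/
lemma one (h : DPar a k e N) : 4 * a 1 + 32 * e ≤ N + 2 * k := by
  have h1 := h.half (i := 1) le_rfl (by have := h.k2; omega)
  simpa using h1

/-- The slack is small. -/
lemma eN (h : DPar a k e N) : 31 * e ≤ N := by
  have h1 := h.one
  have h2 := h.ek
  omega

end DPar

/-- If in both colours all degrees are at most `a 0 + k - 2` then both colours are nearly
regular. -/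
lemma near_of {V : Type} [Fintype V] (G : SimpleGraph V) (a : ℕ → ℕ)
    (k : ℕ) (hlo : 2 * a 0 ≤ Fintype.card V)
    (h1 : ∀ v, (dg G v).card + 2 ≤ a 0 + k) (h2 : ∀ v, (dg Gᶜ v).card + 2 ≤ a 0 + k) :
    Near G k ∧ Near Gᶜ k := by
  classical
  have key : ∀ v, (dg G v).card + (dg Gᶜ v).card + 1 = Fintype.card V := by
    intro v
    have h3 : dg Gᶜ v = (univ \ {v}) \ dg G v := by
      ext w
      rw [Pool.Agent.SFB.mem_dg_compl]
      simp
    have h4 : dg G v ⊆ univ \ {v} := by
      intro w hw
      simp only [mem_sdiff, mem_univ, mem_singleton, true_and]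
      rintro rfl
      exact Pool.Agent.SFB.not_mem_dg hw
    have h5 := card_sdiff_add_card_eq_card h4
    have h6 : (univ \ {v} : Finset V).card + 1 = Fintype.card V := by
      have h7 := card_sdiff_add_card_eq_card (subset_univ ({v} : Finset V))
      rw [card_singleton, card_univ] at h7
      exact h7
    rw [h3]
    omega
  constructor
  · intro w
    have h3 := key w
    have h4 := h1 w
    have h5 := h2 w
    omega
  · intro w
    have h3 := key w
    have h4 := h1 w
    have h5 := h2 w
    omega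

end Pool.Agent.SFI
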