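import Pool.Agent.SFI.Targets
import Pool.Agent.SFG.Final
import Pool.Agent.StarF2.Lower

/-!
# SFI: the final theorem from the targets
-/

set_option autoImplicit false

open Finset

namespace Pool.Agent.SFI

open Pool.Agent.StarF (starForest ramsey)
open Pool.Agent.SFB (Con dg nc)

namespace Final_

lemma sum_mid {k : ℕ} (a : ℕ → ℕ) (p : ℕ) (hp : p + 2 ≤ k) :
    ∑ i ∈ univ.filter (fun i : Fin k => 2 ≤ (i : ℕ) ∧ (i : ℕ) < p + 2), a i =
      ∑ t ∈ Ico 2 (p + 2), a t := by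
  have h : (univ.filter (fun i : Fin k => 2 ≤ (i : ℕ) ∧ (i : ℕ) < p + 2)).map
      Fin.valEmbedding = Ico 2 (p + 2) := by
    ext t
    simp only [mem_map, mem_filter, mem_univ, true_and, Fin.valEmbedding_apply, mem_Ico]
    constructor
    · rintro ⟨i, hi, rfl⟩
      exact hi
    · intro ht
      exact ⟨⟨t, by omega⟩, ht, rfl⟩
  rw [← h, Finset.sum_map]
  rfl

lemma sum_tail {k : ℕ} (a : ℕ → ℕ) :
    ∑ i ∈ univ.filter (fun i : Fin k => 0 < (i : ℕ)), a i = ∑ t ∈ Ico 1 k, a t := by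
  have h : (univ.filter (fun i : Fin k => 0 < (i : ℕ))).map
      Fin.valEmbedding = Ico 1 k := by
    ext t
    simp only [mem_map, mem_filter, mem_univ, true_and, Fin.valEmbedding_apply, mem_Ico]
    constructor
    · rintro ⟨i, hi, rfl⟩
      exact ⟨hi, i.2⟩
    · intro ht
      exact ⟨⟨t, ht.2⟩, ht.1, rfl⟩
  rw [← h, Finset.sum_map]
  rfl

/-- The upper bound from near-regularity. -/
lemma up (hNRG : T_NRG) (hUPC : T_UPC) (a : ℕ → ℕ) (k e p N : ℕ) (hP : DPar a k e N)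
    (hp : p + 2 ≤ k) (hN : 2 * a 0 + 2 * k ≤ N + p + 3)
    (hc : p = 0 ∨ 2 * a 1 + 4 * ∑ t ∈ Ico 2 (p + 2), a t + 16 * e ≤ N)
    (G : SimpleGraph (Fin N)) : Con G k a ∨ Con Gᶜ k a := by
  by_contra hcon
  rw [not_or] at hcon
  have hP' : DPar a k e (Fintype.card (Fin N)) := by rwa [Fintype.card_fin]
  obtain ⟨h1, h2⟩ := hNRG (Fin N) G a k e hP' hcon.1 hcon.2
  obtain ⟨h3, h4⟩ := near_of G a k (by rw [Fintype.card_fin]; exact hP.lo) h1 h2
  rcases hUPC (Fin N) G a k e p hP' h3 h4 hp (by rwa [Fintype.card_fin])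
    (by rwa [Fintype.card_fin]) with h | h
  · exact hcon.1 h
  · exact hcon.2 h

/-- The parameters. -/
lemma dpar (a : ℕ → ℕ) (k N : ℕ) (hk : 2 ≤ k) (hanti : ∀ s t, s ≤ t → t < k → a t ≤ a s)
    (hdom : ∀ i, 1 ≤ i → i < k → ∑ t ∈ range i, a t + 2 * a i + 16000 * k ^ 2 ≤ 2 * a 0)
    (h1 : 2 * a 0 ≤ N) (h2 : N ≤ 2 * a 0 + 2 * k) : DPar a k (1000 * k ^ 2) N :=
  ⟨hk, hanti, h1, h2, fun i hi hik => by have := hdom i hi hik; omega, le_rfl⟩

end Final_

open Final_ in
/-- The theorem. -/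
theorem final (hNRG : T_NRG) (hUPC : T_UPC) (hUPF : T_UPF) (hLWD : T_LWD)
    (k : ℕ) (hk : 2 ≤ k) (C : ℕ) (hC : 20000 * k ^ 2 ≤ C) (n : Fin k → ℕ) (hanti : Antitone n)
    (hbig : ∀ i, C ≤ n i)
    (hdom : ∀ j : Fin k, 0 < (j : ℕ) → n j + ∑ l ∈ Iic j, n l + C ≤ 2 * n ⟨0, by omega⟩) :
    2 * n ⟨0, by omega⟩ + k ≤ ramsey (starForest n) (starForest n) + 1 +
      (if k % 2 = 1 ∧ n ⟨0, by omega⟩ % 2 = 0 then 1 else 0) ∧
    (∀ p, p + 2 ≤ k → (p ≤ 1 ∨ n ⟨1, by omega⟩ +
        2 * ∑ i ∈ univ.filter (fun i : Fin k => 2 ≤ (i : ℕ) ∧ (i : ℕ) < p + 2), n i + C ≤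
        n ⟨0, by omega⟩) →
      ramsey (starForest n) (starForest n) + p + 3 ≤ 2 * n ⟨0, by omega⟩ + 2 * k) ∧
    (2 * ∑ i ∈ univ.filter (fun i : Fin k => 0 < (i : ℕ)), n i + C ≤ n ⟨0, by omega⟩ →
      ramsey (starForest n) (starForest n) + 1 +
        (if k % 2 = 1 ∧ n ⟨0, by omega⟩ % 2 = 0 then 1 else 0) =
        2 * n ⟨0, by omega⟩ + k) := by
  obtain ⟨a, rfl⟩ := Pool.Agent.SFG.Final_.nat_sizes n
  have hk2 : 2 * k ≤ k ^ 2 := by nlinarith
  have hanti' : ∀ s t, s ≤ t → t < k → a t ≤ a s := fun s t hst ht =>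
    hanti (a := (⟨s, by omega⟩ : Fin k)) (b := ⟨t, ht⟩) hst
  have hbig' : ∀ t < k, C ≤ a t := fun t ht => hbig ⟨t, ht⟩
  have h00 := hbig' 0 (by omega)
  simp only [Pool.Agent.SFG.Final_.sum_Iic] at hdom
  have hdom' : ∀ i, 1 ≤ i → i < k → ∑ t ∈ range i, a t + 2 * a i + C ≤ 2 * a 0 := by
    intro i hi hik
    have h1 := hdom ⟨i, hik⟩ hi
    simp only [sum_range_succ] at h1
    omega
  have hP : ∀ N, 2 * a 0 ≤ N → N ≤ 2 * a 0 + 2 * k → DPar a k (1000 * k ^ 2) N :=
    fun N h1 h2 => dpar a k N hk hanti' (fun i hi hik => by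
      have := hdom' i hi hik
      omega) h1 h2
  have hne : ∃ N : ℕ, ∀ G : SimpleGraph (Fin N),
      (starForest (fun i : Fin k => a i)).IsContained G ∨
        (starForest (fun i : Fin k => a i)).IsContained Gᶜ := by
    refine ⟨2 * a 0 + 2 * k - 3, ?_⟩
    exact up hNRG hUPC a k _ 0 _ (hP _ (by omega) (by omega)) (by omega) (by omega)
      (Or.inl rfl)
  have hlow : 2 * a 0 + k ≤ ramsey (starForest (fun i : Fin k => a i))
      (starForest (fun i : Fin k => a i)) + 1 + (if k % 2 = 1 ∧ a 0 % 2 = 0 then 1 else 0) := by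
    set τ : ℕ := if k % 2 = 1 ∧ a 0 % 2 = 0 then 1 else 0 with hτ
    have hτ1 : τ ≤ 1 := by
      rw [hτ]
      split_ifs <;> omega
    obtain ⟨G, h1, h2⟩ := hLWD k a (2 * a 0 + k - 2 - τ) hk
      (fun t ht => by have := hbig' t ht; omega) (by rw [← hτ]; omega)
    have h3 := Pool.Agent.StarF2.ramsey_gt _ _ G h1 h2 hne
    rw [Fintype.card_fin] at h3
    omega
  refine ⟨hlow, ?_, ?_⟩
  · intro p hp hcond
    rw [sum_mid a p hp] at hcond
    have h2 : ramsey (starForest (fun i : Fin k => a i))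
        (starForest (fun i : Fin k => a i)) ≤ 2 * a 0 + 2 * k - 3 - p := by
      apply Pool.Agent.StarF2.ramsey_le
      refine up hNRG hUPC a k _ p _ (hP _ (by omega) (by omega)) hp (by omega) ?_
      rcases hcond with h | h
      · rcases Nat.eq_zero_or_pos p with h0 | h0
        · exact Or.inl h0
        · right
          have hp1 : p = 1 := by omega
          subst hp1
          have h3 := hdom' 2 (by omega) (by omega)
          have h4 : ∑ t ∈ Ico 2 (1 + 2), a t = a 2 := by simp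
          rw [h4]
          simp only [sum_range_succ, range_zero, sum_empty] at h3
          omega
      · right
        simp only at h
        omega
    simp only
    omega
  · intro hcond
    rw [sum_tail a] at hcond
    simp only at hcond
    set τ : ℕ := if k % 2 = 1 ∧ a 0 % 2 = 0 then 1 else 0 with hτ
    have hτ1 : τ ≤ 1 := by
      rw [hτ]
      split_ifs <;> omega
    have hk3 : τ = 1 → 3 ≤ k := by
      intro h
      rw [hτ] at h
      split_ifs at h with h5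
      omega
    have h2 : ramsey (starForest (fun i : Fin k => a i))
        (starForest (fun i : Fin k => a i)) ≤ 2 * a 0 + k - 1 - τ := by
      apply Pool.Agent.StarF2.ramsey_le
      intro G
      have hP' := hP (2 * a 0 + k - 1 - τ) (by omega) (by omega)
      refine hUPF (Fin (2 * a 0 + k - 1 - τ)) G a k _ (by rwa [Fintype.card_fin])
        (by rw [Fintype.card_fin]; omega) ?_
      rw [Fintype.card_fin]
      by_cases h5 : k % 2 = 1 ∧ a 0 % 2 = 0
      · right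
        have h6 : τ = 1 := by rw [hτ, if_pos h5]
        refine ⟨by omega, h5.1, h5.2⟩
      · left
        have h6 : τ = 0 := by rw [hτ, if_neg h5]
        omega
    simp only at hlow ⊢
    omega

end Pool.Agent.SFI
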