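import Pool.Agent.SFI.Targets

/-!
# SFI: DPA, choice of the parameters (MP_705b7e_co)
-/

set_option autoImplicit false

open Finset

namespace Pool.Agent.SFI

open Pool.Agent.SFB (Con dg nc)

theorem p_DPA : T_DPA := by
  intro k δ hk hδ hδ1
  refine ⟨⌈100 * (1000 * (k : ℝ) ^ 2) / δ⌉₊, ?_⟩
  intro a hanti hn hdom
  obtain ⟨A, hA⟩ : ∃ A : ℝ, A = a 0 := ⟨_, rfl⟩
  have hA0 : 0 ≤ A := by rw [hA]; positivity
  have hn' : 100 * (1000 * (k : ℝ) ^ 2) / δ ≤ A := by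
    rw [hA]
    exact (Nat.le_ceil _).trans (by exact_mod_cast hn)
  have hdA : 1000 * (k : ℝ) ^ 2 ≤ δ / 100 * A := by
    rw [div_le_iff₀ hδ] at hn'
    linarith
  obtain ⟨e, he⟩ : ∃ e : ℕ, e = ⌊δ / 100 * A⌋₊ := ⟨_, rfl⟩
  have he1 : (e : ℝ) ≤ δ / 100 * A := by
    rw [he]
    exact Nat.floor_le (by positivity)
  have hbig : 1000 * k ^ 2 ≤ e := by
    rw [he]
    apply Nat.le_floor
    push_cast
    exact hdA
  have hδA : 0 ≤ δ * A := by positivity
  have h1 : 2 * A ≤ (1 + δ) * ((2 - δ) * A) := by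
    have : 0 ≤ δ * A * (1 - δ) := mul_nonneg hδA (by linarith)
    nlinarith
  have h2 : 4 * A ≤ (2 + δ) * ((2 - δ / 2) * A) := by
    have : 0 ≤ δ * A * (1 - δ / 2) := mul_nonneg hδA (by linarith)
    nlinarith
  refine ⟨e, ?_, ?_, ?_⟩
  · intro N hN1 hN2
    refine ⟨hk, hanti, hN1, hN2, ?_, hbig⟩
    intro i hi1 hi2
    have h3 := hdom i hi1 hi2
    rw [← hA] at h3
    have h4 : ((∑ t ∈ range i, a t + 2 * a i : ℕ) : ℝ) ≤ (2 - δ) * A :=
      le_of_mul_le_mul_left (h3.trans h1) (by linarith)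
    have h5 : ((∑ t ∈ range i, a t + 2 * a i + 16 * e : ℕ) : ℝ) ≤ ((2 * a 0 : ℕ) : ℝ) := by
      rw [Nat.cast_add (∑ t ∈ range i, a t + 2 * a i) (16 * e)]
      push_cast
      push_cast at h4
      rw [← hA]
      linarith
    have h6 : ∑ t ∈ range i, a t + 2 * a i + 16 * e ≤ 2 * a 0 := by exact_mod_cast h5
    exact h6.trans hN1
  · intro s hs
    rw [← hA] at hs
    have h4 : 2 * (s : ℝ) ≤ (2 - δ) * A := by
      refine le_of_mul_le_mul_left (le_trans ?_ h1) (show 0 < 1 + δ by linarith)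
      linarith
    have h5 : ((2 * s + 16 * e : ℕ) : ℝ) ≤ ((2 * a 0 : ℕ) : ℝ) := by
      push_cast
      rw [← hA]
      linarith
    exact_mod_cast h5
  · intro s hs
    rw [← hA] at hs
    have h4 : 4 * (s : ℝ) ≤ (2 - δ / 2) * A := by
      refine le_of_mul_le_mul_left (le_trans ?_ h2) (show 0 < 2 + δ by linarith)
      linarith
    have h5 : ((4 * s + 16 * e : ℕ) : ℝ) ≤ ((2 * a 0 : ℕ) : ℝ) := by
      push_cast
      rw [← hA]
      linarith
    exact_mod_cast h5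

end Pool.Agent.SFI
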