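import Pool.Agent.SFI.Targets

/-!
# SFI: near-regularity of both colours (T_NRG)
-/

set_option autoImplicit false

open Finset

namespace Pool.Agent.SFI

open Pool.Agent.SFB (Con dg nc)

namespace NRG_

lemma key {V : Type} [Fintype V] (G : SimpleGraph V) (v : V) :
    (dg G v).card + (dg Gᶜ v).card + 1 = Fintype.card V := by
  classical
  have h3 : dg Gᶜ v = (univ \ {v}) \ dg G v := by
    ext w
    rw [Pool.Agent.SFB.mem_dg_compl]
    simp
  have h4 : dg G v ⊆ univ \ {v} := by
    intro w hw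
    simp only [mem_sdiff, mem_univ, mem_singleton, true_and]
    rintro rfl
    exact Pool.Agent.SFB.not_mem_dg hw
  have h5 := card_sdiff_add_card_eq_card h4
  have h6 : (univ \ {v} : Finset V).card + 1 = Fintype.card V := by
    have h7 := card_sdiff_add_card_eq_card (subset_univ ({v} : Finset V))
    rw [card_singleton, card_univ] at h7
    exact h7
  rw [h3]
  omega

lemma half (hONE : T_ONE) {V : Type} [Fintype V] [DecidableEq V] (G : SimpleGraph V) (a : ℕ → ℕ)
    (k e : ℕ) (hP : DPar a k e (Fintype.card V)) (hG : ¬ Con G k a) (hGc : ¬ Con Gᶜ k a)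
    (h : ∀ v, (dg G v).card < a 0 + k) :
    (∀ v, (dg G v).card + 2 ≤ a 0 + k) ∧ (∀ v, (dg Gᶜ v).card + 2 ≤ a 0 + k) := by
  have hlo := hP.lo
  have h1 : ∀ v, (dg Gᶜ v).card + 2 ≤ a 0 + k := by
    intro v
    by_contra hv
    refine hGc (hONE V Gᶜ a k e v hP (fun w => ?_) (by omega))
    have h2 := key G w
    have h3 := h w
    omega
  refine ⟨fun v => ?_, h1⟩
  by_contra hv
  refine hG (hONE V G a k e v hP (fun w => ?_) (by omega))
  have h2 := key G w
  have h3 := h1 w
  omega

end NRG_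

theorem p_NRG (hTOP : T_TOP) (hONE : T_ONE) : T_NRG := by
  intro V _ _ G a k e hP hG hGc
  rcases hTOP V G a k e hP hG hGc with h | h
  · exact NRG_.half hONE G a k e hP hG hGc h
  · have h1 : ¬ Con Gᶜᶜ k a := by rwa [compl_compl]
    have h2 := NRG_.half hONE Gᶜ a k e hP hGc h1 h
    rw [compl_compl] at h2
    exact ⟨h2.2, h2.1⟩

end Pool.Agent.SFI
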