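import Pool.Agent.SFI.Defs

/-!
# SFI: targets

`N = |V|`. `F` is the star forest with the sizes `a 0 ≥ .. ≥ a (k - 1)`. The notions `Con`, `dg`,
`nc` are those of `Pool.Agent.SFB`. Used in the docstrings only: `c` = centres,
`C = (range k).image c`, `S_i = a 0 + .. + a (i - 1)`.

Every target `T_X` is to be proved as `theorem p_X (hypotheses) : T_X` in
`Pool/Agent/SFI/P_X.lean`.
-/

set_option autoImplicit false

open Finset

namespace Pool.Agent.SFI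

open Pool.Agent.StarF (starForest ramsey)
open Pool.Agent.SFB (Con dg nc)
open Pool.Agent.SFG (Cov pf PF)
open Pool.Agent.SFH (HS)

/-! ### embedding -/

/-- EMC (from SFB.EMB). Proof: Hall's condition of `Pool.Agent.SFB.T_EMB`. Let `J ⊆ range k`,
`J ≠ ∅`, `J' = J.erase 0`. For `t ∈ J'` the set `D t \ C` has at least `a t + 1` elements: `D t`
has `a t + k` elements and contains at most `k - 1` elements of `C` (not `c t`, as
`D t ⊆ dg (c t)`). The sets `D t \ C`, `t ∈ J'`, are disjoint subsets of `nc G c J \ C`. If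
`0 ∈ J` then also `Z \ C ⊆ nc G c J \ C`, disjoint from them (`avZ`), with at least `a 0`
elements. -/
def T_EMC : Prop := ∀ (V : Type) [Fintype V] [DecidableEq V] (G : SimpleGraph V) (a : ℕ → ℕ)
  (k : ℕ) (Z : Finset V) (c : ℕ → V) (D : ℕ → Finset V), 1 ≤ k → Psy G a k k Z c D →
  Z ⊆ dg G (c 0) → a 0 ≤ (Z \ (range k).image c).card → Con G k a

/-- GRE. Greedy extension. Proof: induction on `k - i` (or on `j` from `i` to `k`); one step from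
`j` to `j + 1`, `1 ≤ i ≤ j < k`. `W = univ \ (Z ∪ ⋃ D t)` (`1 ≤ t < j`), so
`2 |W| ≥ 2 N - (N + 2 k) - 2 ∑ t ∈ Ico 1 j, (a t + k) ≥ 2 a j * 2 + 12 k` :
by `DPar.half`, `2 ∑ t ∈ Ico 1 j, a t + 4 a j + 32 e ≤ N + 2 k`, so
`2 |W| ≥ N - 2 k - (N + 2 k - 4 a j - 32 e) - 2 k ^ 2 = 4 a j + 32 e - 4 k - 2 k ^ 2`
and `e ≥ 1000 k ^ 2`. Double counting: `∑ u, |dg u ∩ W| = ∑ w ∈ W, |dg w|`, and
`2 |dg w| ≥ N - 4 k`; the `j` centres contribute at most `j |W| ≤ k |W|`. So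
`2 ∑ u ∉ {c 0, .., c (j-1)}, |dg u ∩ W| ≥ |W| (N - 6 k)`. If all these `u` had
`|dg u ∩ W| < a j + k` then `|W| (N - 6 k) ≤ 2 N (a j + k - 1)`, but
`|W| ≥ 2 a j + 8 k`, `|W| ≤ N`, so `|W| (N - 6 k) ≥ N |W| - 6 k N ≥ N (2 a j + 2 k)`:
contradiction. Take such a `u` as `c j` (`Function.update`), `D j` a subset of `dg u ∩ W` with
`a j + k` elements. -/
def T_GRE : Prop := ∀ (V : Type) [Fintype V] [DecidableEq V] (G : SimpleGraph V) (a : ℕ → ℕ)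
  (k e i : ℕ) (Z : Finset V) (c : ℕ → V) (D : ℕ → Finset V), DPar a k e (Fintype.card V) →
  (∀ w, Fintype.card V ≤ 2 * (dg G w).card + 4 * k) → 2 * Z.card ≤ Fintype.card V + 2 * k →
  1 ≤ i → i ≤ k → Psy G a k i Z c D →
  ∃ (c' : ℕ → V) (D' : ℕ → Finset V), Psy G a k k Z c' D' ∧ ∀ t < i, c' t = c t

/-! ### near-regularity -/

/-- ONE (from EMC, GRE). Proof: `Z ⊆ dg G v` with `a 0 + k - 1` elements,
`2 |Z| = 2 a 0 + 2 k - 2 ≤ N + 2 k`. `c = fun _ => v` is a `Psy` of length 1 (all conditions with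
`1 ≤ t < 1` are void). GRE gives a `Psy` of length `k` with `c' 0 = v`. `Z` contains at most
`k - 1` of the `k` centres (not `v`), so `|Z \ C| ≥ a 0`: EMC. -/
def T_ONE : Prop := ∀ (V : Type) [Fintype V] [DecidableEq V] (G : SimpleGraph V) (a : ℕ → ℕ)
  (k e : ℕ) (v : V), DPar a k e (Fintype.card V) →
  (∀ w, Fintype.card V ≤ 2 * (dg G w).card + 4 * k) → a 0 + k ≤ (dg G v).card + 1 → Con G k a

/-- TOP (from SFG.MMX, SFH.NKB, SFB.EMB). Proof: for a graph `H ∈ {G, Gᶜ}` let `κ(H)` be the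
largest `i ≤ k` such that some `c` satisfies `HS H a k i c` (surplus `k`); `i = 0` is possible for
every `c` (all conditions are void, `J ⊆ range 0` is empty). `κ(H) < k`: if `HS H a k k c` then
`|nc J \ C| ≥ s(J) + k - k`, so `Con H k a` by EMB, excluded. Let `c1, c2` be such systems of
lengths `K1 = κ(G)`, `K2 = κ(Gᶜ)` (no system of length `K1 + 1`, resp. `K2 + 1`, exists) and
`Y` = the complement of `(range K1).image c1 ∪ (range K2).image c2`, `|Yᶜ| ≤ 2 k`, `Y ≠ ∅` as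
`N > 2 k` (`DPar.eN`, `DPar.ek`). MMX with `L = 1` gives `X ⊆ Y`, `|Y \ X| < 1`, so `X = Y`, and
`Cov G Y Y 1 P` or `Cov Gᶜ Y Y 1 P`. Say the first. NKB with `f = z = k`, `K = K1`, `r = 2 k`:
`N ≤ ∑ t ∈ range K1, a t + 2 a K1 + 2 k + 2 k + 1`. If `K1 ≥ 1` this contradicts `DPar.dom`
(`16 e > 4 k + 1`). So `K1 = 0`: there is no system of length 1. If some vertex had degree at least
`a 0 + k` then a vertex `v` of maximal degree would give the system `fun _ => v` of length 1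
(`J = {0}`). So all degrees of `G` are less than `a 0 + k`. -/
def T_TOP : Prop := ∀ (V : Type) [Fintype V] [DecidableEq V] (G : SimpleGraph V) (a : ℕ → ℕ)
  (k e : ℕ), DPar a k e (Fintype.card V) → ¬ Con G k a → ¬ Con Gᶜ k a →
  (∀ v, (dg G v).card < a 0 + k) ∨ (∀ v, (dg Gᶜ v).card < a 0 + k)

/-- NRG (from TOP, ONE). Proof: say all degrees of `G` are less than `a 0 + k` (the other case is
symmetric, `Gᶜᶜ = G`). `|dg G w| + |dg Gᶜ w| = N - 1`, so `2 |dg Gᶜ w| ≥ 2 N - 2 a 0 - 2 k`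
`≥ N - 2 k` (`2 a 0 ≤ N`); by ONE for `Gᶜ` (not containing `F`), `|dg Gᶜ v| + 1 < a 0 + k` for all
`v`. Hence `2 |dg G w| ≥ 2 (N - 1) - 2 (a 0 + k - 2) ≥ N - 2 k + 2`, and ONE for `G` gives
`|dg G v| + 1 < a 0 + k`. -/
def T_NRG : Prop := ∀ (V : Type) [Fintype V] [DecidableEq V] (G : SimpleGraph V) (a : ℕ → ℕ)
  (k e : ℕ), DPar a k e (Fintype.card V) → ¬ Con G k a → ¬ Con Gᶜ k a →
  (∀ v, (dg G v).card + 2 ≤ a 0 + k) ∧ (∀ v, (dg Gᶜ v).card + 2 ≤ a 0 + k)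

/-! ### far vertices -/

/-- FAR. Proof: double counting `∑ x, |dg x \ dg v| = ∑ w ∉ dg v, |dg w|`; the number of `w` is
`N - |dg v| ≥ (N - 2 k) / 2`, each `|dg w| ≥ (N - 2 k) / 2`, so the sum is at least
`(N - 2 k) ^ 2 / 4`. Let `h` be the number of `x` with `N ≤ 4 |dg x \ dg v| + 8 e`. The other `x`
have `|dg x \ dg v| < N / 4 - 2 e`, all have `|dg x \ dg v| ≤ N`: the sum is at most
`h N + N (N / 4 - 2 e)`. So `h N ≥ N ^ 2 / 4 - k N - N ^ 2 / 4 + 2 e N = (2 e - k) N` and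
`h ≥ 2 e - k ≥ 3 k`. (Multiply by 4 and work in the integers.) -/
def T_FAR : Prop := ∀ (V : Type) [Fintype V] [DecidableEq V] (G : SimpleGraph V) (k e : ℕ)
  (v : V), Near G k → 2 * k ≤ e → 1 ≤ k → 4 * k ≤ Fintype.card V →
  3 * k ≤ (univ.filter (fun x => Fintype.card V ≤ 4 * (dg G x \ dg G v).card + 8 * e)).card

/-- FAC. The same sets for the complement. Proof:
`dg Gᶜ x \ dg Gᶜ v ⊇ (dg G v \ dg G x) \ {x}` (if `w ∈ dg G v` then `w ∉ dg Gᶜ v`; if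
`w ∉ dg G x`, `w ≠ x` then `w ∈ dg Gᶜ x`), and
`|dg v \ dg x| = |dg v| - |dg v ∩ dg x|`, `|dg x \ dg v| = |dg x| - |dg v ∩ dg x|`,
`|dg x| ≤ |dg v| + 2 k` by `Near`. -/
def T_FAC : Prop := ∀ (V : Type) [Fintype V] [DecidableEq V] (G : SimpleGraph V) (k : ℕ)
  (v x : V), Near G k →
  (dg G x \ dg G v).card ≤ ((dg G v \ dg G x) \ {x}).card + 2 * k + 1 ∧
  ((dg G v \ dg G x) \ {x}).card ≤ (dg Gᶜ x \ dg Gᶜ v).card

/-! ### counting -/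

/-- GSY. Proof: both sides are `2 * (number of the adjacent pairs) - |T| |S|`
(`gE G T S = 2 * ∑ t ∈ T, |dg t ∩ S| - |T| |S|`, double counting of the pairs `(t, s) ∈ T × S` with
`G.Adj t s`). The other three statements: additivity in both arguments. -/
def T_GSY : Prop := ∀ (V : Type) [Fintype V] [DecidableEq V] (G : SimpleGraph V),
  (∀ T S : Finset V, gE G T S = gE G S T) ∧
  (∀ T S S' : Finset V, Disjoint S S' → gE G T (S ∪ S') = gE G T S + gE G T S') ∧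
  (∀ T T' S : Finset V, Disjoint T T' → gE G (T ∪ T') S = gE G T S + gE G T' S) ∧
  (∀ T S : Finset V, |gE G T S| ≤ T.card * S.card)

/-- MIN. Proof: let `S0` be a subset of `S` with `m` elements with the least sum of `ψ` (exists:
`powersetCard m S` is nonempty). If all elements of `S \ S0` have `ψ ≥ 0` then
`∑ S0 = ∑ S - ∑ (S \ S0) ≤ ∑ S`. Otherwise let `ψ u < 0`, `u ∈ S \ S0`; for every `z ∈ S0` the set
`insert u (S0.erase z)` shows `ψ z ≤ ψ u < 0`; so `∑ S0 ≤ 0 ≤ ∑ S`. -/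
def T_MIN : Prop := ∀ (V : Type) [Fintype V] [DecidableEq V] (ψ : V → ℤ) (S : Finset V) (m : ℕ),
  m ≤ S.card → ∃ S0 ⊆ S, S0.card = m ∧ (0 ≤ ∑ z ∈ S, ψ z → ∑ z ∈ S0, ψ z ≤ ∑ z ∈ S, ψ z)

/-- SUM. Proof: every term `g y = 2 |dg y ∩ S| - |S|` of `gE G T S` satisfies `-N ≤ g y ≤ N`. In
the first statement all terms except those of the (at most `k`) exceptional `y` are at least `4 e`,
the exceptional ones at least `-N ≥ 4 e - 2 N` (`4 e ≤ N`); the sum is at least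
`4 e |T| - 2 N k`. The second statement in the same way. -/
def T_SUM : Prop := ∀ (V : Type) [Fintype V] [DecidableEq V] (G : SimpleGraph V)
  (T S : Finset V) (k e : ℕ), 4 * e ≤ Fintype.card V →
  ((T.filter (fun y => ¬ (4 * (e : ℤ) ≤ 2 * ((dg G y ∩ S).card : ℤ) - S.card))).card ≤ k →
    4 * (e : ℤ) * T.card ≤ gE G T S + 2 * k * Fintype.card V) ∧
  ((T.filter (fun y => ¬ (2 * ((dg G y ∩ S).card : ℤ) - S.card ≤ -(4 * (e : ℤ))))).card ≤ k →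
    gE G T S + 4 * (e : ℤ) * T.card ≤ 2 * k * Fintype.card V)

/-- CNT (from GSY). Proof, with `E T S = gE G T S` (symmetric, additive), `N = |V|`:
`Ψ P = E P A - E P B`, `Ψ R = E R A - E R B`. By additivity and symmetry the hypotheses are
(a) `8 e |A| ≤ 2 E A A + E P0 A + E R0 A + 4 k N`,
(b) `2 E B B + E P0 B + E R0 B + 8 e |B| ≤ 4 k N`,
(c) `8 e |R| ≤ E R A - E R B + 4 k N` (the terms `E R R0` cancel),
(d) `8 e |P| ≤ E P A - E P B + 4 k N`.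
(1) `|R|, |P| ≥ N / 8` and `e ≥ 100 k + 100`, so `Ψ P, Ψ R ≥ e N - 4 k N ≥ 0`.
(2) The minimum property: `E P0 A - E P0 B ≤ Ψ P`, `E R0 A - E R0 B ≤ Ψ R`.
(3) Regularity: `|E A univ| ≤ ∑ w ∈ A, |2 |dg w| - N| ≤ 2 k |A| ≤ 2 k N` and
`E A univ = E A A + E A B + E A P + E A R + E A Z` with `|E A Z| ≤ |A| |Z| ≤ 2 N`; the same for
`B`. Subtract: `|E A A - E B B + Ψ P + Ψ R| ≤ (4 k + 4) N`.
(4) (a) - (b): `8 e (|A| + |B|) ≤ 2 (E A A - E B B) + (E P0 A - E P0 B) + (E R0 A - E R0 B) +`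
`8 k N ≤ -2 Ψ P - 2 Ψ R + (8 k + 8) N + Ψ P + Ψ R + 8 k N`. So `Ψ P + Ψ R ≤ (16 k + 8) N`.
(5) By (1) `Ψ P + Ψ R ≥ 2 e N - 8 k N`, so `2 e ≤ 24 k + 8`: contradiction. -/
def T_CNT : Prop := ∀ (V : Type) [Fintype V] [DecidableEq V] (G : SimpleGraph V)
  (A B P R Z P0 R0 : Finset V) (k e : ℕ),
  Disjoint A B → Disjoint (A ∪ B) P → Disjoint (A ∪ B ∪ P) R → Disjoint (A ∪ B ∪ P ∪ R) Z →
  A ∪ B ∪ P ∪ R ∪ Z = univ → Z.card ≤ 2 → P0 ⊆ P → R0 ⊆ R → Near G k →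
  1 ≤ Fintype.card V → 100 * k + 100 ≤ e →
  Fintype.card V ≤ 8 * P.card → Fintype.card V ≤ 8 * R.card →
  8 * (e : ℤ) * A.card ≤
    gE G A (A ∪ P0) + gE G A (A ∪ R0) + 4 * k * Fintype.card V →
  gE G B (B ∪ R0) + gE G B (B ∪ P0) + 8 * (e : ℤ) * B.card ≤ 4 * k * Fintype.card V →
  8 * (e : ℤ) * R.card ≤
    gE G R (A ∪ R0) - gE G R (B ∪ R0) + 4 * k * Fintype.card V →
  8 * (e : ℤ) * P.card ≤
    gE G P (A ∪ P0) - gE G P (B ∪ P0) + 4 * k * Fintype.card V →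
  (0 ≤ gE G P A - gE G P B → gE G P0 A - gE G P0 B ≤ gE G P A - gE G P B) →
  (0 ≤ gE G R A - gE G R B → gE G R0 A - gE G R0 B ≤ gE G R A - gE G R B) → False

/-- EXC (from FAC, MIN, SUM, CNT). Let `Z = {v, x}` and (without `v` and `x`)
`A = dg v ∩ dg x`, `B = univ \ (dg v ∪ dg x ∪ Z)`, `P = (dg v \ dg x) \ {x}`,
`R = (dg x \ dg v) \ {v}`: a partition of `univ`. `h = ω + 2 k ^ 2`, `ω = ∑ t ∈ Ico 2 (p+2), a t`.
Sizes: `4 |R| ≥ N - 8 e - 4`, `4 |P| ≥ N - 8 e - 8 k - 4` (FAC); by `DPar.one`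
(`4 a 1 + 32 e ≤ N + 2 k`) both are at least `a 1 + k`, and at least `N / 8` (`31 e ≤ N`,
`2000 k ≤ e`). By MIN (for `ψ z = gE G {z} A - gE G {z} B`; `∑ z ∈ T, ψ z = gE G T A - gE G T B` is
immediate from the definition of `gE`) choose `P0 ⊆ P`, `R0 ⊆ R` with `|P0| = |P| - a 1 - k`,
`|R0| = |R| - a 1 - k`. Suppose that none of the four alternatives holds for
`D = R \ R0`, `P \ P0`, `P \ P0`, `R \ R0` respectively (in each case `D` has `a 1 + k` elements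
and the first condition of `Hst` holds). So in each case fewer than `k` vertices are hosts.
(1) `Hst G a k h v x (R \ R0)`: `univ \ dg G v \ D ⊇ B ∪ R0`. So all but `k` of the
`y ∈ B ∪ R` (they are not adjacent to `v`, and different from `v`, `x`) have
`|dg y ∩ (B ∪ R0)| < h`. `|B ∪ R0| ≥ N - |dg v| - 2 - a 1 - k`, so
`2 (2 h - |B ∪ R0|) ≤ 4 ω + 8 k ^ 2 - N + 2 k + 4 + 2 a 1 + 2 k ≤ -16 e + 8 k ^ 2 + 4 k + 4 ≤`
`-8 e`: `2 |dg y ∩ (B ∪ R0)| - |B ∪ R0| ≤ -4 e`.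
(2) `Hst Gᶜ a k h v x (P \ P0)`: (`P \ P0 ⊆ dg Gᶜ x \ dg Gᶜ v`.) The vertices `y ∈ A ∪ P` are not
adjacent to `v` in `Gᶜ`, `univ \ dg Gᶜ v \ D ⊇ A ∪ P0`. So all but `k` of them have
`|dg Gᶜ y ∩ (A ∪ P0)| < h`, `|dg G y ∩ (A ∪ P0)| ≥ |A ∪ P0| - 1 - |dg Gᶜ y ∩ (A ∪ P0)|`, so
`2 |dg G y ∩ (A ∪ P0)| - |A ∪ P0| ≥ |A ∪ P0| - 2 - 2 h ≥ 4 e` as in (1)
(`|A ∪ P0| ≥ |dg v| - 1 - a 1 - k`).
(3) `Hst G a k h x v (P \ P0)`: all but `k` of the `y ∈ B ∪ P` have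
`2 |dg y ∩ (B ∪ P0)| - |B ∪ P0| ≤ -4 e`.
(4) `Hst Gᶜ a k h x v (R \ R0)`: all but `k` of the `y ∈ A ∪ R` have
`2 |dg y ∩ (A ∪ R0)| - |A ∪ R0| ≥ 4 e`.
SUM with `T = A`, `S = A ∪ P0` by (2) and `S = A ∪ R0` by (4); `T = B`, `S = B ∪ R0` by (1),
`S = B ∪ P0` by (3); `T = R`, `S = B ∪ R0` by (1), `S = A ∪ R0` by (4); `T = P`, `S = A ∪ P0`
by (2), `S = B ∪ P0` by (3). This is CNT. -/
def T_EXC : Prop := ∀ (V : Type) [Fintype V] [DecidableEq V] (G : SimpleGraph V) (a : ℕ → ℕ)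
  (k e p : ℕ) (v x : V), DPar a k e (Fintype.card V) → Near G k → Near Gᶜ k → v ≠ x →
  p + 2 ≤ k → 2 * a 1 + 4 * ∑ t ∈ Ico 2 (p + 2), a t + 16 * e ≤ Fintype.card V →
  Fintype.card V ≤ 4 * (dg G x \ dg G v).card + 8 * e →
  ∃ D : Finset V,
    Hst G a k (∑ t ∈ Ico 2 (p + 2), a t + 2 * k ^ 2) v x D ∨
    Hst Gᶜ a k (∑ t ∈ Ico 2 (p + 2), a t + 2 * k ^ 2) v x D ∨
    Hst G a k (∑ t ∈ Ico 2 (p + 2), a t + 2 * k ^ 2) x v D ∨
    Hst Gᶜ a k (∑ t ∈ Ico 2 (p + 2), a t + 2 * k ^ 2) x v D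

/-! ### the upper bounds -/

/-- HST. Proof: induction on `i`, `2 ≤ i ≤ p + 2`, for a `Psy` of length `i` with `c 0 = v`,
`c 1 = x`, `D' 1 = D` and `c t`, `2 ≤ t < i`, in the set `Y` of hosts (not `v`, `x`, not in
`dg G v`), `|Y| ≥ k`. Start `i = 2`: `c = fun t => if t = 0 then v else x`. Step: some `y ∈ Y` is
different from the `c t`, `2 ≤ t < i` (at most `k - 2`); `dg y ∩ ((univ \ dg G v) \ D)` without the
`D' t`, `2 ≤ t < i`, has at least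
`∑ t ∈ Ico 2 (p+2), a t + 2 k ^ 2 - ∑ t ∈ Ico 2 i, (a t + k) ≥ a i + 2 k ^ 2 - (k - 2) k ≥ a i + k`
elements. -/
def T_HST : Prop := ∀ (V : Type) [Fintype V] [DecidableEq V] (G : SimpleGraph V) (a : ℕ → ℕ)
  (k p : ℕ) (v x : V) (D : Finset V), p + 2 ≤ k → v ≠ x →
  Hst G a k (∑ t ∈ Ico 2 (p + 2), a t + 2 * k ^ 2) v x D →
  ∃ (c : ℕ → V) (D' : ℕ → Finset V), Psy G a k (p + 2) (dg G v) c D' ∧ c 0 = v ∧ c 1 = x ∧
    ∀ t, 2 ≤ t → t < p + 2 → c t ∉ dg G v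

/-- CST (from EMC, GRE). The costs. Proof: GRE (`Z = dg G v`) extends `c, D` to length `k`;
of the centres `c' 1, .., c' (k-1)` those with index `2 ≤ t < p + 2` are not in `dg G v`, so
`C ∩ dg G v` has at most `[x ∈ dg G v] + (k - 2 - p)` elements (`v ∉ dg G v`). In the complement:
`D1 ⊆ dg Gᶜ x \ dg Gᶜ v` with `a 1 + k` elements gives a `Psy` of length 2 with `Z = dg Gᶜ v`,
`c 0 = v`, `c 1 = x`; GRE extends it; `C' ∩ dg Gᶜ v` has at most `[x ∈ dg Gᶜ v] + (k - 2)`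
elements. Exactly one of `x ∈ dg G v`, `x ∈ dg Gᶜ v` holds. The sum of the two bounds is
`2 k - 3 - p`; `|dg G v| + |dg Gᶜ v| = N - 1 ≥ 2 a 0 + 2 k - 4 - p`. So
`|dg G v| ≥ a 0 + (first bound)` or `|dg Gᶜ v| ≥ a 0 + (second bound)`: EMC. -/
def T_CST : Prop := ∀ (V : Type) [Fintype V] [DecidableEq V] (G : SimpleGraph V) (a : ℕ → ℕ)
  (k e p : ℕ) (v x : V) (c : ℕ → V) (D : ℕ → Finset V), DPar a k e (Fintype.card V) →
  Near G k → Near Gᶜ k → v ≠ x → p + 2 ≤ k → 2 * a 0 + 2 * k ≤ Fintype.card V + p + 3 →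
  Psy G a k (p + 2) (dg G v) c D → c 0 = v → c 1 = x →
  (∀ t, 2 ≤ t → t < p + 2 → c t ∉ dg G v) → a 1 + k ≤ (dg Gᶜ x \ dg Gᶜ v).card →
  Con G k a ∨ Con Gᶜ k a

/-- UPC (from FAR, FAC, EXC, HST, CST). Proof: by FAR some `x` has
`N ≤ 4 |dg x \ dg v| + 8 e` (`v` any vertex; `x ≠ v` as `8 e < N`). With `DPar.one`
(`4 a 1 + 32 e ≤ N + 2 k`) and FAC the sets `dg x \ dg v` and `dg Gᶜ x \ dg Gᶜ v` have at least
`a 1 + k` elements; the same for `v` and `x` exchanged (`dg Gᶜ v \ dg Gᶜ x` and `dg v \ dg x`: use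
`|dg v \ dg x| ≥ |dg x \ dg v| - 2 k - 1` and `(dg x \ dg v) \ {v} ⊆ dg Gᶜ v \ dg Gᶜ x`).
`p = 0`: `D1 ⊆ dg x \ dg v` with `a 1 + k` elements gives a `Psy` of length 2: CST. `p > 0`: EXC
gives four cases; in each of them HST and CST (for `Gᶜ` use `Gᶜᶜ = G`). -/
def T_UPC : Prop := ∀ (V : Type) [Fintype V] [DecidableEq V] (G : SimpleGraph V) (a : ℕ → ℕ)
  (k e p : ℕ), DPar a k e (Fintype.card V) → Near G k → Near Gᶜ k →
  p + 2 ≤ k → 2 * a 0 + 2 * k ≤ Fintype.card V + p + 3 →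
  (p = 0 ∨ 2 * a 1 + 4 * ∑ t ∈ Ico 2 (p + 2), a t + 16 * e ≤ Fintype.card V) →
  Con G k a ∨ Con Gᶜ k a

/-- FE2 (from SFB.EMB). Proof: choose distinct `c 1, .., c (k-1) ∈ T`, `c 0 = v`. Hall's condition
of EMB: `C` has at most `k` elements; if `J` contains some `t ≥ 1` then `nc G c J \ C` contains
`(dg (c t) \ dg v) \ C` with at least `∑ t ∈ Ico 1 k, a t` elements, and if also `0 ∈ J` it
contains `dg v \ C = dg v` (`C ∩ dg v = ∅`), disjoint from it. If `J = {0}`: `dg v \ C = dg v`. -/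
def T_FE2 : Prop := ∀ (V : Type) [Fintype V] [DecidableEq V] (G : SimpleGraph V) (a : ℕ → ℕ)
  (k : ℕ) (v : V) (T : Finset V), 1 ≤ k → k ≤ T.card + 1 → v ∉ T → Disjoint T (dg G v) →
  a 0 ≤ (dg G v).card →
  (∀ t ∈ T, ∑ i ∈ Ico 1 k, a i + k ≤ (dg G t \ dg G v).card) → Con G k a

/-- FA2 (from FAR, FAC, FE2). Proof: suppose `|dg G v| ≥ a 0` and `|dg Gᶜ v| ≥ a 0`. By FAR at
least `3 k` vertices `x` (different from `v`) have `N ≤ 4 |dg x \ dg v| + 8 e`, so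
`|dg x \ dg v| ≥ ∑ + k` (`4 ∑ + 16 e ≤ N`, `8 e ≥ 4 k`), and by FAC
`|dg Gᶜ x \ dg Gᶜ v| ≥ |dg x \ dg v| - 2 k - 1 ≥ ∑ + k`. At least `k - 1` of them are in
`dg Gᶜ v` (then FE2 for `G`) or at least `k - 1` of them are in `dg G v` (then FE2 for `Gᶜ`). -/
def T_FA2 : Prop := ∀ (V : Type) [Fintype V] [DecidableEq V] (G : SimpleGraph V) (a : ℕ → ℕ)
  (k e : ℕ) (v : V), DPar a k e (Fintype.card V) → Near G k →
  4 * ∑ i ∈ Ico 1 k, a i + 16 * e ≤ Fintype.card V → ¬ Con G k a → ¬ Con Gᶜ k a →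
  (dg G v).card < a 0 ∨ (dg Gᶜ v).card < a 0

/-- ODD. Handshake. Proof: `SimpleGraph.sum_degrees_eq_twice_card_edges`; `(dg G v).card` is the
degree of `v`. -/
def T_ODD : Prop := ∀ (V : Type) [Fintype V] [DecidableEq V] (G : SimpleGraph V),
  Fintype.card V % 2 = 1 → ¬ ∀ v, (dg G v).card % 2 = 1

/-- UPF (from NRG, FA2, ODD). Proof: suppose neither colour contains `F`. NRG: all degrees of both
colours are at most `a 0 + k - 2`; `Near` by `near_of`. By FA2 for every `v` one of the two degrees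
is less than `a 0`, and their sum is `N - 1`. If `N ≥ 2 a 0 + k - 1` then the other one is at least
`N - 1 - (a 0 - 1) ≥ a 0 + k - 1`, contradiction. If `N = 2 a 0 + k - 2`, `k` odd, `a 0` even:
`{|dg G v|, |dg Gᶜ v|} = {a 0 - 1, a 0 + k - 2}`, both odd, for all `v`; `N` is odd: ODD. -/
def T_UPF : Prop := ∀ (V : Type) [Fintype V] [DecidableEq V] (G : SimpleGraph V) (a : ℕ → ℕ)
  (k e : ℕ), DPar a k e (Fintype.card V) → 4 * ∑ i ∈ Ico 1 k, a i + 16 * e ≤ Fintype.card V →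
  (2 * a 0 + k ≤ Fintype.card V + 1 ∨
    (2 * a 0 + k = Fintype.card V + 2 ∧ k % 2 = 1 ∧ a 0 % 2 = 0)) →
  Con G k a ∨ Con Gᶜ k a

/-! ### the lower bound -/

/-- LPF. The lower bound colouring. Proof: note `x * c % 2 = 0` in both cases (if `k` is even then
`c = k - 2` is even; if `k` and `a 0` are odd then `x = a 0 + k - 2` is even; in the second case
`c = k - 3` is even). Let `A` be as in `pf`, `B = range k \ A`. First alternative: if `0 ∈ B` then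
`a 0 + 1 ≤ ∑ B + |B| ≤ y = a 0`. If `0 ∈ A`, `|A| = 1` then `a 0 + 1 + c ≤ x`, but
`x = a 0 + c`. If `0 ∈ A`, `|A| ≥ 2` then `a 0 + a t + 2 ≤ x` for some `t ∈ A`, `t ≠ 0`,
so `a t < k`. Second alternative: if `0 ∈ A` and `|A| ≥ 2` the same contradiction; if `A = {0}`
then `|B| = k - 1` and `a 0 + (k - 1) ≤ x ≤ a 0 + k - 2`. If `0 ∈ B`, `|B| ≥ 2` then
`a 0 + a t ≤ y + z ≤ a 0 + k * c`, so `a t ≤ k * (k - 2)`. If `B = {0}` then `|A| = k - 1`,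
`z ≤ c` and `a 0 + (k - 1) ≤ a 0 + c`: contradiction. -/
def T_LPF : Prop := ∀ (k : ℕ) (a : ℕ → ℕ) (x c : ℕ), 2 ≤ k → (∀ t < k, k ^ 2 ≤ a t) →
  ((c = k - 2 ∧ (k % 2 = 0 ∨ a 0 % 2 = 1)) ∨ (3 ≤ k ∧ c = k - 3 ∧ k % 2 = 1)) →
  x = a 0 + c → ¬ pf a k x (a 0) c

/-- LWD (from SFG.LOW, SFG.CNV, LPF). Proof: LOW for `n i = a i`, `y = a 0`, and
`(x, c) = (a 0 + k - 2, k - 2)` if `k` is even or `a 0` is odd, `(a 0 + k - 3, k - 3)` otherwise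
(then `k ≥ 3` is odd); `PF` and `pf` are equivalent by CNV; `c < x`. `x + y = N`. The graph on
`Fin (x + y)` is transported to `Fin N` by `subst`. (`Con G k a` is by definition
`(starForest (fun i : Fin k => a i)).IsContained G`.) -/
def T_LWD : Prop := ∀ (k : ℕ) (a : ℕ → ℕ) (N : ℕ), 2 ≤ k → (∀ t < k, k ^ 2 ≤ a t) →
  N + 2 + (if k % 2 = 1 ∧ a 0 % 2 = 0 then 1 else 0) = 2 * a 0 + k →
  ∃ G : SimpleGraph (Fin N), ¬ Con G k a ∧ ¬ Con Gᶜ k a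

/-! ### parameters -/

/-- DPA. The parameters. Proof: let `δ' = δ / 100`, `e = ⌊δ' * a 0⌋`. For `a 0 ≥ n₀` large,
`e ≥ 1000 k ^ 2` and `e ≥ 2 k`. `DPar`: `k2`, `anti`, `lo`, `up`, `big` are clear. `dom`:
`(1 + δ) (S_i + 2 a i) ≤ 2 a 0` implies
`S_i + 2 a i ≤ 2 a 0 / (1 + δ) ≤ 2 a 0 - δ a 0` (for `δ ≤ 1`: `(2 - δ) (1 + δ) = 2 + δ - δ ^ 2 ≥
2`), and `16 e ≤ 16 δ a 0 / 100 ≤ δ a 0`. The second conclusion: `(1 + δ) s ≤ a 0` implies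
`4 s ≤ 4 a 0 / (1 + δ)`; `2 s ≤ 2 a 0 - δ a 0` as before, `2 s + 16 e ≤ 2 a 0`. The third:
`(2 + δ) s ≤ a 0` implies `4 s ≤ 4 a 0 / (2 + δ) ≤ (2 - δ / 2) a 0` (for `δ ≤ 1`:
`(2 - δ / 2) (2 + δ) = 4 + δ - δ ^ 2 / 2 ≥ 4`) and `16 e ≤ 16 δ a 0 / 100 ≤ δ a 0 / 2`. -/
def T_DPA : Prop := ∀ (k : ℕ) (δ : ℝ), 2 ≤ k → 0 < δ → δ ≤ 1 → ∃ n₀ : ℕ, ∀ a : ℕ → ℕ,
  (∀ s t, s ≤ t → t < k → a t ≤ a s) → n₀ ≤ a 0 →
  (∀ i, 1 ≤ i → i < k → (1 + δ) * ((∑ t ∈ range i, a t + 2 * a i : ℕ) : ℝ) ≤ 2 * (a 0 : ℝ)) →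
  ∃ e : ℕ, (∀ N, 2 * a 0 ≤ N → N ≤ 2 * a 0 + 2 * k → DPar a k e N) ∧
    (∀ s : ℕ, (1 + δ) * (s : ℝ) ≤ a 0 → 2 * s + 16 * e ≤ 2 * a 0) ∧
    (∀ s : ℕ, (2 + δ) * (s : ℝ) ≤ a 0 → 4 * s + 16 * e ≤ 2 * a 0)

end Pool.Agent.SFI
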